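import Pool.Agent.Q203.TR.Eta

set_option autoImplicit false

open Set Topology Filter

namespace Pool.Agent.Q203.TR

/-- first coordinates -/
def vs (d : List ℕ) : List ℕ := d.map fun m => m.unpair.1

/-- the atomic diagram of a tuple -/
def lab (G : ℕ → ℕ → Bool) (v : List ℕ) : List (List (Bool × Bool)) :=
  v.map fun a => v.map fun b => (decide (a = b), G a b)

/-- the period function of a binary relation -/
noncomputable def qq (G : ℕ → ℕ → Bool) (d : List ℕ) : ℕ :=
  Nat.nth Nat.Prime (Encodable.encode (lab G (vs d))) - 1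

theorem qq_add_one (G : ℕ → ℕ → Bool) (d : List ℕ) :
    qq G d + 1 = Nat.nth Nat.Prime (Encodable.encode (lab G (vs d))) := by
  have := (Nat.prime_nth_prime (Encodable.encode (lab G (vs d)))).pos
  unfold qq
  omega

theorem qq_eq {G G' : ℕ → ℕ → Bool} {d d' : List ℕ} (h : qq G d = qq G' d') :
    lab G (vs d) = lab G' (vs d') := by
  have h1 : qq G d + 1 = qq G' d' + 1 := by rw [h]
  rw [qq_add_one, qq_add_one] at h1
  exact Encodable.encode_injective (Nat.nth_injective Nat.infinite_setOfPred_prime h1)

theorem lab_length (G : ℕ → ℕ → Bool) (v : List ℕ) : (lab G v).length = v.length := by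
  simp [lab]

theorem adm_qq (G : ℕ → ℕ → Bool) : Adm (qq G) := by
  refine ⟨fun d => ?_, fun d d' h => ?_⟩
  · rw [qq_add_one]
    exact Nat.prime_nth_prime _
  · have := congrArg List.length (qq_eq h)
    rw [lab_length, lab_length] at this
    simpa [vs] using this

theorem lab_entry {G G' : ℕ → ℕ → Bool} {n : ℕ} {α β : ℕ → ℕ}
    (h : lab G ((List.range n).map α) = lab G' ((List.range n).map β)) {i j : ℕ} (hi : i < n)
    (hj : j < n) : (α i = α j ↔ β i = β j) ∧ G (α i) (α j) = G' (β i) (β j) := by
  have h1 : ((lab G ((List.range n).map α))[i]?.getD [])[j]? =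
      ((lab G' ((List.range n).map β))[i]?.getD [])[j]? := by rw [h]
  simp [lab, hi, hj] at h1
  exact ⟨h1.1, h1.2⟩

theorem back_and_forth {G G' : ℕ → ℕ → Bool} (η : List ℕ → List ℕ) (hη0 : η [] = [])
    (hq : ∀ d, qq G' (η d) = qq G d)
    (hforth : ∀ d v, ∃ a b, a.unpair.1 = v ∧ η (d ++ [a]) = η d ++ [b])
    (hback : ∀ d v, ∃ a b, b.unpair.1 = v ∧ η (d ++ [a]) = η d ++ [b]) :
    ∃ f : Equiv.Perm ℕ, ∀ a b, G a b = G' (f a) (f b) := by
  classical
  choose fa fb hf1 hf2 using hforth
  choose ba bb hb1 hb2 using hback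
  -- the sequence of extensions
  let nxa : ℕ → List ℕ → ℕ := fun n d => if n % 2 = 0 then fa d (n / 2) else ba d (n / 2)
  let nxb : ℕ → List ℕ → ℕ := fun n d => if n % 2 = 0 then fb d (n / 2) else bb d (n / 2)
  have hnx : ∀ n d, η (d ++ [nxa n d]) = η d ++ [nxb n d] := by
    intro n d
    by_cases hn : n % 2 = 0
    · simp only [nxa, nxb, hn, if_true]
      exact hf2 d _
    · simp only [nxa, nxb, hn, if_false]
      exact hb2 d _
  let s : ℕ → List ℕ := fun n => Nat.rec [] (fun n d => d ++ [nxa n d]) n
  have hs0 : s 0 = [] := rfl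
  have hs : ∀ n, s (n + 1) = s n ++ [nxa n (s n)] := fun n => rfl
  let a' : ℕ → ℕ := fun n => nxa n (s n)
  let b' : ℕ → ℕ := fun n => nxb n (s n)
  have hsa : ∀ n, s n = (List.range n).map a' := by
    intro n
    induction n with
    | zero => rfl
    | succ n ih => rw [hs, List.range_succ, List.map_append, ← ih]; rfl
  have hsb : ∀ n, η (s n) = (List.range n).map b' := by
    intro n
    induction n with
    | zero => rw [hs0, hη0]; rfl
    | succ n ih => rw [hs, hnx, List.range_succ, List.map_append, ← ih]; rfl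
  let α : ℕ → ℕ := fun n => (a' n).unpair.1
  let β : ℕ → ℕ := fun n => (b' n).unpair.1
  have hlab : ∀ n, lab G ((List.range n).map α) = lab G' ((List.range n).map β) := by
    intro n
    have h1 := qq_eq (hq (s n)).symm
    rw [hsb, hsa] at h1
    simp only [vs, List.map_map] at h1
    exact h1
  have hent : ∀ i j, (α i = α j ↔ β i = β j) ∧ G (α i) (α j) = G' (β i) (β j) := by
    intro i j
    exact lab_entry (hlab (max i j + 1)) (by omega) (by omega)
  have hα : Function.Surjective α := by
    intro m
    refine ⟨2 * m, ?_⟩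
    have h1 : (2 * m) % 2 = 0 := by omega
    have h2 : (2 * m) / 2 = m := by omega
    simp only [α, a', nxa, h1, if_true, h2]
    exact hf1 _ _
  have hβ : Function.Surjective β := by
    intro m
    refine ⟨2 * m + 1, ?_⟩
    have h1 : ¬ ((2 * m + 1) % 2 = 0) := by omega
    have h2 : (2 * m + 1) / 2 = m := by omega
    simp only [β, b', nxb, h1, if_false, h2]
    exact hb1 _ _
  let f : ℕ → ℕ := fun m => β (Function.surjInv hα m)
  have hf : ∀ i, f (α i) = β i := by
    intro i
    exact (hent _ i).1.1 (Function.surjInv_eq hα (α i))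
  have hfi : Function.Injective f := by
    intro m m' hmm
    obtain ⟨i, rfl⟩ := hα m
    obtain ⟨j, rfl⟩ := hα m'
    rw [hf, hf] at hmm
    exact (hent i j).1.2 hmm
  have hfs : Function.Surjective f := by
    intro m
    obtain ⟨i, rfl⟩ := hβ m
    exact ⟨α i, hf i⟩
  refine ⟨Equiv.ofBijective f ⟨hfi, hfs⟩, fun a b => ?_⟩
  obtain ⟨i, rfl⟩ := hα a
  obtain ⟨j, rfl⟩ := hα b
  change G (α i) (α j) = G' (f (α i)) (f (α j))
  rw [hf, hf]
  exact (hent i j).2

/-- conjugate systems come from isomorphic relations -/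
theorem iso_of_conj {G G' : ℕ → ℕ → Bool} (h : X0 ≃ₜ X0)
    (hc : ∀ y, h (T (qq G) y) = T (qq G') (h y)) :
    ∃ f : Equiv.Perm ℕ, ∀ a b, G a b = G' (f a) (f b) := by
  obtain ⟨η, hη1, hη2, hη3⟩ := exists_eta (adm_qq G) (adm_qq G') h hc
  obtain ⟨θ, hθ1, hθ2, hθ3⟩ := exists_eta (adm_qq G') (adm_qq G) h.symm (conj_symm h hc)
  have hθη : ∀ d, θ (η d) = d := by
    intro d
    apply P_inj
    rw [← hθ1, ← hη1, h.symm_apply_apply]
  have hηθ : ∀ d, η (θ d) = d := by
    intro d
    apply P_inj
    rw [← hη1, ← hθ1, h.apply_symm_apply]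
  have hlen : ∀ d, (η d).length = d.length := by
    intro d
    have := congrArg List.length (qq_eq (hη2 d))
    rw [lab_length, lab_length] at this
    simpa [vs] using this
  have hlen' : ∀ d, (θ d).length = d.length := by
    intro d
    have := congrArg List.length (qq_eq (hθ2 d))
    rw [lab_length, lab_length] at this
    simpa [vs] using this
  have hchild : ∀ (s t : List ℕ), s <+: t → t.length = s.length + 1 → ∃ b, t = s ++ [b] := by
    rintro s t ⟨r, rfl⟩ hl
    rw [List.length_append] at hl
    obtain ⟨b, rfl⟩ := List.length_eq_one_iff.1 (by omega : r.length = 1)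
    exact ⟨b, rfl⟩
  refine back_and_forth η (List.length_eq_zero_iff.1 (by rw [hlen]; rfl)) hη2 ?_ ?_
  · intro d v
    obtain ⟨k, hk⟩ : ∃ k : ℕ, Nat.pair v k ∉ {a : ℕ | ¬ η d <+: η (d ++ [a])} := by
      by_contra hcon
      push Not at hcon
      refine Set.infinite_of_injective_forall_mem (f := fun k => Nat.pair v k) ?_ hcon (hη3 d)
      intro k k' hkk
      exact (Nat.pair_eq_pair.1 hkk).2
    simp only [mem_ofPred_eq, not_not] at hk
    obtain ⟨b, hb⟩ := hchild _ _ hk (by rw [hlen, hlen]; simp)
    exact ⟨Nat.pair v k, b, by simp, hb⟩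
  · intro d v
    obtain ⟨k, hk⟩ : ∃ k : ℕ, Nat.pair v k ∉ {a : ℕ | ¬ θ (η d) <+: θ (η d ++ [a])} := by
      by_contra hcon
      push Not at hcon
      refine Set.infinite_of_injective_forall_mem (f := fun k => Nat.pair v k) ?_ hcon (hθ3 (η d))
      intro k k' hkk
      exact (Nat.pair_eq_pair.1 hkk).2
    simp only [mem_ofPred_eq, not_not] at hk
    rw [hθη] at hk
    obtain ⟨a, ha⟩ := hchild _ _ hk (by rw [hlen']; simp [hlen])
    refine ⟨a, Nat.pair v k, by simp, ?_⟩
    rw [← ha, hηθ]

/-- isomorphic relations give conjugate systems -/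
theorem conj_of_iso {G G' : ℕ → ℕ → Bool} (f : Equiv.Perm ℕ) (hf : ∀ a b, G a b = G' (f a) (f b)) :
    ∃ h : X0 ≃ₜ X0, ∀ y, h (T (qq G) y) = T (qq G') (h y) := by
  let e : Equiv.Perm ℕ := ⟨fun m => Nat.pair (f m.unpair.1) m.unpair.2,
    fun m => Nat.pair (f.symm m.unpair.1) m.unpair.2, fun m => by simp, fun m => by simp⟩
  let ρ : Equiv.Perm (List ℕ) := ⟨List.map e, List.map e.symm, fun l => by simp,
    fun l => by simp⟩
  have hρ : ∀ s, ρ s = List.map e s := fun s => rfl
  have hρ' : ∀ s, ρ.symm s = List.map e.symm s := fun s => rfl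
  have hpre : ∀ s t, s <+: t → ρ s <+: ρ t := by
    intro s t h
    rw [hρ, hρ]
    exact h.map e
  have hpre' : ∀ s t, s <+: t → ρ.symm s <+: ρ.symm t := by
    intro s t h
    rw [hρ', hρ']
    exact h.map e.symm
  have hqρ : ∀ d, qq G' (ρ d) = qq G d := by
    intro d
    have : lab G' (vs (ρ d)) = lab G (vs d) := by
      have h1 : vs (ρ d) = (vs d).map f := by
        simp [vs, hρ, e, Function.comp_def]
      rw [h1]
      simp only [lab, List.map_map, Function.comp_def]
      simp [hf]
    unfold qq
    rw [this]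
  -- the permutation of `A`
  let τ : Equiv.Perm A := Equiv.sumCongr ρ (ρ.prodCongr (Equiv.refl ℕ))
  have hτinl : ∀ s, τ (Sum.inl s) = Sum.inl (ρ s) := fun s => rfl
  have hτinr : ∀ d k, τ (Sum.inr (d, k)) = Sum.inr (ρ d, k) := fun d k => rfl
  have hτinl' : ∀ s, τ.symm (Sum.inl s) = Sum.inl (ρ.symm s) := fun s => rfl
  have hτinr' : ∀ d k, τ.symm (Sum.inr (d, k)) = Sum.inr (ρ.symm d, k) := fun d k => rfl
  have hok : ∀ x, Okp x → Okp fun a => x (τ a) := by
    intro x hx
    refine ⟨?_, ?_, ?_, ?_, ?_⟩
    · intro s t hst ht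
      exact hx.down _ _ (hpre s t hst) ht
    · intro s t hs ht
      rcases hx.chain _ _ hs ht with h | h
      · left
        have := hpre' _ _ h
        simpa using this
      · right
        have := hpre' _ _ h
        simpa using this
    · intro d k h
      exact hx.leaf _ _ h
    · intro d k t h ht
      have := hpre' _ _ (hx.leafmax _ _ _ h ht)
      simpa using this
    · intro d k k' h h'
      exact hx.leafuniq _ _ _ h h'
  have hok' : ∀ x, Okp x → Okp fun a => x (τ.symm a) := by
    intro x hx
    refine ⟨?_, ?_, ?_, ?_, ?_⟩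
    · intro s t hst ht
      exact hx.down _ _ (hpre' s t hst) ht
    · intro s t hs ht
      rcases hx.chain _ _ hs ht with h | h
      · left
        have := hpre _ _ h
        simpa using this
      · right
        have := hpre _ _ h
        simpa using this
    · intro d k h
      exact hx.leaf _ _ h
    · intro d k t h ht
      have := hpre _ _ (hx.leafmax _ _ _ h ht)
      simpa using this
    · intro d k k' h h'
      exact hx.leafuniq _ _ _ h h'
  have hnil : τ (Sum.inl []) = Sum.inl [] := rfl
  have hnil' : τ.symm (Sum.inl []) = Sum.inl [] := rfl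
  let h : X0 ≃ₜ X0 :=
    { toFun := fun y => ⟨fun p => y.1 (p.1, τ.symm p.2), fun i => hok' _ (y.2.1 i),
        fun i h1 h2 a => y.2.2 i (by simpa [hnil'] using h1) (by simpa [hnil'] using h2) _⟩
      invFun := fun y => ⟨fun p => y.1 (p.1, τ p.2), fun i => hok _ (y.2.1 i),
        fun i h1 h2 a => y.2.2 i (by simpa [hnil] using h1) (by simpa [hnil] using h2) _⟩
      left_inv := fun y => by
        refine Subtype.ext (funext fun p => ?_)
        simp
      right_inv := fun y => by
        refine Subtype.ext (funext fun p => ?_)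
        simp
      continuous_toFun := by
        refine Continuous.subtype_mk (continuous_pi fun p => ?_) _
        exact (continuous_apply _).comp continuous_subtype_val
      continuous_invFun := by
        refine Continuous.subtype_mk (continuous_pi fun p => ?_) _
        exact (continuous_apply _).comp continuous_subtype_val }
  refine ⟨h, fun y => Subtype.ext (funext fun ia => ?_)⟩
  obtain ⟨i, s | ⟨d, k⟩⟩ := ia
  · rfl
  · change y.1 (i + 1, (sg (qq G)).symm (Sum.inr (ρ.symm d, k))) =
      y.1 (i + 1, τ.symm ((sg (qq G')).symm (Sum.inr (d, k))))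
    rw [sg_symm_inr, sg_symm_inr, hτinr']
    have := hqρ (ρ.symm d)
    rw [ρ.apply_symm_apply] at this
    rw [this]

theorem locConst_map {X ι D : Type*} [TopologicalSpace X] (f : ι → X → D)
    (hf : ∀ i, IsLocallyConstant (f i)) (L : List ι) :
    IsLocallyConstant fun x => L.map fun i => f i x := by
  induction L with
  | nil => exact IsLocallyConstant.const _
  | cons i L ih => exact (hf i).comp₂ ih (fun a l => a :: l)

/-- the map from relations to period functions is continuous -/
theorem continuous_qq : Continuous fun G : ℕ → ℕ → Bool => qq G := by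
  refine continuous_pi fun d => ?_
  have h1 : IsLocallyConstant fun G : ℕ → ℕ → Bool => lab G (vs d) := by
    refine locConst_map (fun a (G : ℕ → ℕ → Bool) => (vs d).map fun b => (decide (a = b), G a b))
      (fun a => ?_) (vs d)
    refine locConst_map (fun b (G : ℕ → ℕ → Bool) => (decide (a = b), G a b)) (fun b => ?_) (vs d)
    have h2 : IsLocallyConstant fun G : ℕ → ℕ → Bool => G a b :=
      (IsLocallyConstant.iff_continuous _).2 ((continuous_apply b).comp (continuous_apply a))
    exact h2.comp fun c => (decide (a = b), c)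
  exact (h1.comp fun l => Nat.nth Nat.Prime (Encodable.encode l) - 1).continuous

end Pool.Agent.Q203.TR
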