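import Pool.Agent.Q203.TR.Space

set_option autoImplicit false

open Set Topology Filter

namespace Pool.Agent.Q203.TR

theorem T_val (q : List ℕ → ℕ) (y : X0) : (T q y).1 = TT q y.1 := rfl

theorem TT_iter (q : List ℕ → ℕ) (n : ℕ) (y : ℤ × A → Bool) (i : ℤ) (a : A) :
    (TT q)^[n] y (i, a) = y (i + n, (sg q).symm^[n] a) := by
  induction n generalizing i a with
  | zero => simp
  | succ n ih =>
    rw [Function.iterate_succ_apply', Function.iterate_succ_apply]
    simp only [TT]
    rw [ih]
    congr 2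
    push_cast
    ring

theorem T_iter_val (q : List ℕ → ℕ) (n : ℕ) (y : X0) : ((T q)^[n] y).1 = (TT q)^[n] y.1 := by
  induction n with
  | zero => rfl
  | succ n ih =>
    rw [Function.iterate_succ_apply', Function.iterate_succ_apply', ← ih]
    rfl

theorem sg_symm_iter_inl (q : List ℕ → ℕ) (n : ℕ) (s : List ℕ) :
    (sg q).symm^[n] (Sum.inl s) = Sum.inl s := by
  induction n with
  | zero => rfl
  | succ n ih => rw [Function.iterate_succ_apply', ih, sg_symm_inl]

theorem sg_symm_iter_inr (q : List ℕ → ℕ) (n : ℕ) (d : List ℕ) (k : ℕ) :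
    (sg q).symm^[n] (Sum.inr (d, k)) = Sum.inr (d, (rot (q d)).symm^[n] k) := by
  induction n with
  | zero => rfl
  | succ n ih => rw [Function.iterate_succ_apply', ih, sg_symm_inr, Function.iterate_succ_apply']

theorem rot_symm_iter_eq_iff (n m k : ℕ) : (rot n).symm^[m] k = k ↔ (n + 1) ∣ m := by
  rw [← rot_iter_eq_iff n m k]
  have h : Function.LeftInverse ((rot n)^[m]) ((rot n).symm^[m]) :=
    Function.LeftInverse.iterate (fun x => (rot n).apply_symm_apply x) m
  have h' : Function.LeftInverse ((rot n).symm^[m]) ((rot n)^[m]) :=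
    Function.LeftInverse.iterate (fun x => (rot n).symm_apply_apply x) m
  constructor
  · intro hk
    conv_lhs => rw [← hk]
    exact h k
  · intro hk
    conv_lhs => rw [← hk]
    exact h' k

/-- transitivity -/
theorem transitive (q : List ℕ → ℕ) (U V : Set X0) (hU : IsOpen U) (hV : IsOpen V)
    (hUn : U.Nonempty) (hVn : V.Nonempty) : ∃ n : ℕ, (((T q)^[n]) '' U ∩ V).Nonempty := by
  classical
  obtain ⟨u, hu⟩ := hUn
  obtain ⟨v, hv⟩ := hVn
  obtain ⟨F, hF⟩ := exists_finset hU hu
  obtain ⟨F', hF'⟩ := exists_finset hV hv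
  obtain ⟨N, hN⟩ := exists_window (F ∪ F')
  have hNF : ∀ p ∈ F, |p.1| ≤ N := fun p hp => hN p (Finset.mem_union_left _ hp)
  have hNF' : ∀ p ∈ F', |p.1| ≤ N := fun p hp => hN p (Finset.mem_union_right _ hp)
  let m : ℕ := 2 * N + 2
  let σ : A → A := (sg q)^[m]
  let y : ℤ × A → Bool := fun p => if |p.1| ≤ N then u.1 p else
    if |p.1 - m| ≤ N then v.1 (p.1 - m, σ p.2) else false
  have hσinl : ∀ s, σ (Sum.inl s) = Sum.inl s := by
    intro s
    have : ∀ j, (sg q)^[j] (Sum.inl s) = Sum.inl s := by
      intro j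
      induction j with
      | zero => rfl
      | succ j ih => rw [Function.iterate_succ_apply', ih, sg_inl]
    exact this m
  have hokσ : ∀ x : A → Bool, Okp x → Okp fun a => x (σ a) := by
    intro x hx
    have : ∀ j, Okp fun a => x ((sg q)^[j] a) := by
      intro j
      induction j with
      | zero => exact hx
      | succ j ih =>
        have h1 : (fun a => x ((sg q)^[j + 1] a)) =
            fun a => (fun b => x ((sg q)^[j] b)) (sg q a) := by
          funext a
          rw [Function.iterate_succ_apply]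
        rw [h1]
        exact okp_sg ih q
    exact this m
  have hy : y ∈ X0 := by
    refine ⟨fun i => ?_, fun i => ?_⟩
    · by_cases hi : |i| ≤ N
      · simp only [y, hi, if_true]
        exact u.2.1 i
      · by_cases hi2 : |i - m| ≤ N
        · simp only [y, hi, if_false, hi2, if_true]
          exact hokσ _ (v.2.1 (i - m))
        · simp only [y, hi, if_false, hi2]
          exact okp_zero
    · by_cases hi : |i| ≤ N
      · by_cases hi' : |i + 1| ≤ N
        · simp only [y, hi, hi', if_true]
          exact u.2.2 i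
        · have h3 : ¬ |i + 1 - m| ≤ N := by
            rw [abs_le] at *
            simp only [m] at *
            push_cast at *
            omega
          simp [y, hi', h3]
      · by_cases hi2 : |i - m| ≤ N
        · have h4 : ¬ |i + 1| ≤ N := by
            rw [abs_le] at *
            simp only [m] at *
            push_cast at *
            omega
          by_cases hi3 : |i + 1 - m| ≤ N
          · simp only [y, hi, hi2, h4, hi3, if_true, if_false]
            intro h5 h6 a
            rw [hσinl] at h5 h6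
            have e1 : i + 1 - (m : ℤ) = i - m + 1 := by ring
            rw [e1] at h6 ⊢
            exact v.2.2 (i - m) h5 h6 _
          · simp [y, h4, hi3]
        · simp [y, hi, hi2]
  refine ⟨m, ?_⟩
  have hyU : (⟨y, hy⟩ : X0) ∈ U := hF _ fun a ha => by simp [y, hNF a ha]
  refine ⟨(T q)^[m] ⟨y, hy⟩, ⟨_, hyU, rfl⟩, ?_⟩
  apply hF'
  rintro ⟨i, a⟩ ha
  have hi : |i| ≤ N := hNF' _ ha
  rw [T_iter_val, TT_iter]
  have h3 : ¬ |i + m| ≤ N := by
    rw [abs_le] at *
    simp only [m] at *
    push_cast at *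
    omega
  have h4 : |i + m - m| ≤ N := by
    have : i + (m : ℤ) - m = i := by ring
    rw [this]
    exact hi
  have h5 : σ ((sg q).symm^[m] a) = a :=
    Function.LeftInverse.iterate (fun x => (sg q).apply_symm_apply x) m a
  simp only [y, h3, h4, if_true, if_false, h5]
  rw [add_sub_cancel_right]

/-- fixed points are constant -/
theorem fixed_cst (q : List ℕ → ℕ) {y : X0} (h : T q y = y) :
    ∃ x, Okp x ∧ y.1 = cst x ∧ (∀ a, x ((sg q).symm a) = x a) := by
  have h1 : ∀ i a, y.1 (i + 1, (sg q).symm a) = y.1 (i, a) := by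
    intro i a
    exact congrFun (congrArg Subtype.val h) (i, a)
  have h2 : ∀ i, y.1 (i + 1, Sum.inl []) = y.1 (i, Sum.inl []) := fun i => h1 i (Sum.inl [])
  have hcst : ∀ i a, y.1 (i, a) = y.1 (0, a) := by
    have h3 : ∀ i, y.1 (i, Sum.inl []) = y.1 (0, Sum.inl []) := by
      intro i
      induction i using Int.induction_on with
      | zero => rfl
      | succ i ih => rw [h2]; exact ih
      | pred i ih =>
        rw [← ih]
        have := h2 (-i - 1)
        rw [show -(i : ℤ) - 1 + 1 = -i by ring] at this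
        exact this.symm
    by_cases h0 : y.1 (0, Sum.inl []) = true
    · have h4 : ∀ i a, y.1 (i, a) = y.1 (i + 1, a) := by
        intro i a
        exact y.2.2 i (by rw [h3]; exact h0) (by rw [h3]; exact h0) a
      intro i a
      induction i using Int.induction_on with
      | zero => rfl
      | succ i ih => rw [← h4]; exact ih
      | pred i ih =>
        rw [← ih]
        have := h4 (-i - 1) a
        rw [show -(i : ℤ) - 1 + 1 = -i by ring] at this
        exact this
    · intro i a
      have h0' : ∀ i, y.1 (i, Sum.inl []) = false := by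
        intro i
        rw [h3 i]
        simpa using h0
      rw [(y.2.1 i).eq_zero (h0' i) a, (y.2.1 0).eq_zero (h0' 0) a]
  refine ⟨fun a => y.1 (0, a), y.2.1 0, ?_, ?_⟩
  · funext p
    exact hcst p.1 p.2
  · intro a
    have := h1 0 a
    rw [hcst (0 + 1)] at this
    exact this

/-- star free periodic points of prime period -/
theorem per_of (q : List ℕ → ℕ) (hq : ∀ d, (q d + 1).Prime) {p : ℕ} (hp : p.Prime) {z : X0}
    (h1 : (T q)^[p] z = z) (h2 : T q z ≠ z) (h3 : ∀ i : ℤ, 0 ≤ i → i ≤ p →
      z.1 (i, Sum.inl []) = true) : ∃ d k, z.1 = cst (lf d k) ∧ q d + 1 = p := by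
  have hper : ∀ i a, z.1 (i + p, (sg q).symm^[p] a) = z.1 (i, a) := by
    intro i a
    have := congrFun (congrArg Subtype.val h1) (i, a)
    rw [T_iter_val, TT_iter] at this
    exact this
  have hper0 : ∀ i, z.1 (i + p, Sum.inl []) = z.1 (i, Sum.inl []) := by
    intro i
    have := hper i (Sum.inl [])
    rw [sg_symm_iter_inl] at this
    exact this
  have hpz : (0 : ℤ) < p := by exact_mod_cast hp.pos
  have hall : ∀ i, z.1 (i, Sum.inl []) = true := by
    have h4 : ∀ (m : ℕ) (i : ℤ), z.1 (i + m * p, Sum.inl []) = z.1 (i, Sum.inl []) := by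
      intro m
      induction m with
      | zero => intro i; simp
      | succ m ih =>
        intro i
        have : i + ((m + 1 : ℕ) : ℤ) * p = (i + m * p) + p := by push_cast; ring
        rw [this, hper0, ih]
    intro i
    have h5 : i = i % p + (i / p) * p := by
      have := Int.emod_add_mul_ediv i p
      linarith [mul_comm (i / (p : ℤ)) (p : ℤ)]
    have h6 : z.1 (i % p, Sum.inl []) = true :=
      h3 _ (Int.emod_nonneg i hpz.ne') (Int.emod_lt_of_pos i hpz).le
    rcases Int.eq_nat_or_neg (i / p) with ⟨m, hm | hm⟩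
    · rw [h5, hm, h4]
      exact h6
    · have h7 : i % p = i + m * p := by rw [hm] at h5; linarith
      rw [h7, h4] at h6
      exact h6
  have hc : ∀ i a, z.1 (i, a) = z.1 (0, a) := by
    have h4 : ∀ i a, z.1 (i, a) = z.1 (i + 1, a) := fun i a => z.2.2 i (hall _) (hall _) a
    intro i a
    induction i using Int.induction_on with
    | zero => rfl
    | succ i ih => rw [← h4]; exact ih
    | pred i ih =>
      rw [← ih]
      have := h4 (-i - 1) a
      rw [show -(i : ℤ) - 1 + 1 = -i by ring] at this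
      exact this
  -- some leaf coordinate is true
  obtain ⟨d, k, hdk⟩ : ∃ d k, z.1 (0, Sum.inr (d, k)) = true := by
    by_contra hcon
    push Not at hcon
    apply h2
    refine Subtype.ext (funext fun ia => ?_)
    obtain ⟨i, s | ⟨d, k⟩⟩ := ia
    · simp only [T_val, TT, sg_symm_inl]
      rw [hc, hc i]
    · simp only [T_val, TT, sg_symm_inr]
      rw [hc, hc i]
      have e1 := hcon d k
      have e2 := hcon d ((rot (q d)).symm k)
      simp only [ne_eq, Bool.not_eq_true] at e1 e2
      rw [e1, e2]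
  have hz : z.1 = cst (lf d k) := by
    funext ia
    obtain ⟨i, a⟩ := ia
    rw [hc i a]
    exact congrFun ((z.2.1 0).eq_lf hdk) a
  refine ⟨d, k, hz, ?_⟩
  have h4 := hper 0 (Sum.inr (d, (rot (q d))^[p] k))
  rw [hz] at h4
  rw [sg_symm_iter_inr] at h4
  have h5 : (rot (q d)).symm^[p] ((rot (q d))^[p] k) = k :=
    Function.LeftInverse.iterate (fun x => (rot (q d)).symm_apply_apply x) p k
  rw [h5] at h4
  simp only [cst, lf] at h4
  simp only [decide_true, Prod.mk.injEq, true_and] at h4
  have h6 : (rot (q d))^[p] k = k := by simpa using h4.symm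
  rw [rot_iter_eq_iff] at h6
  exact (Nat.prime_dvd_prime_iff_eq (hq d) hp).1 h6

theorem cst_lf_per (q : List ℕ → ℕ) (d : List ℕ) (k : ℕ) :
    (T q)^[q d + 1] ⟨cst (lf d k), cst_mem (okp_lf d k)⟩ = ⟨cst (lf d k), cst_mem (okp_lf d k)⟩ := by
  refine Subtype.ext ?_
  rw [T_iter_val]
  funext ia
  obtain ⟨i, s | ⟨d', k'⟩⟩ := ia
  · rw [TT_iter, sg_symm_iter_inl]
    rfl
  · rw [TT_iter, sg_symm_iter_inr]
    simp only [cst, lf]
    rw [decide_eq_decide]
    simp only [Prod.mk.injEq]
    constructor
    · rintro ⟨rfl, h⟩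
      refine ⟨rfl, ?_⟩
      rw [← h]
      exact ((rot_symm_iter_eq_iff _ _ _).2 dvd_rfl).symm
    · rintro ⟨rfl, h⟩
      refine ⟨rfl, ?_⟩
      rw [h]
      exact (rot_symm_iter_eq_iff _ _ _).2 dvd_rfl

theorem cst_lf_ne (q : List ℕ → ℕ) (hq : ∀ d, (q d + 1).Prime) (d : List ℕ) (k : ℕ) :
    T q ⟨cst (lf d k), cst_mem (okp_lf d k)⟩ ≠ ⟨cst (lf d k), cst_mem (okp_lf d k)⟩ := by
  intro h
  have := congrFun (congrArg Subtype.val h) (0, Sum.inr (d, k))
  simp only [T_val, TT, sg_symm_inr, cst, lf, decide_true] at this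
  have h1 : (rot (q d)).symm k = k := by simpa using this
  have h2 := (rot_symm_iter_eq_iff (q d) 1 k).1 h1
  have h3 := Nat.le_of_dvd one_pos h2
  have h4 := (hq d).two_le
  omega

theorem cst_pt_fixed (q : List ℕ → ℕ) (d : List ℕ) :
    T q ⟨cst (pt d), cst_mem (okp_pt d)⟩ = ⟨cst (pt d), cst_mem (okp_pt d)⟩ := by
  refine Subtype.ext (funext fun ia => ?_)
  obtain ⟨i, s | ⟨d', k'⟩⟩ := ia <;> rfl

/-- the fixed points that are limits of points of least period `p` -/
def FF (q : List ℕ → ℕ) (p : ℕ) : Set X0 :=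
  {y | T q y = y ∧ y ∈ closure {z : X0 | (T q)^[p] z = z ∧ T q z ≠ z}}

theorem pt_mem_FF (q : List ℕ → ℕ) (hq : ∀ d, (q d + 1).Prime) (d : List ℕ) :
    (⟨cst (pt d), cst_mem (okp_pt d)⟩ : X0) ∈ FF q (q d + 1) := by
  refine ⟨cst_pt_fixed q d, ?_⟩
  rw [mem_closure_iff]
  intro O hO hyO
  obtain ⟨F, hF⟩ := exists_finset hO hyO
  -- choose k outside the finitely many coordinates
  obtain ⟨k, hk⟩ : ∃ k : ℕ, ∀ i, ((i, Sum.inr (d, k)) : ℤ × A) ∉ F := by
    classical
    obtain ⟨k, hk⟩ := Infinite.exists_notMem_finset (F.image fun ia : ℤ × A =>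
      match ia.2 with
      | Sum.inl _ => 0
      | Sum.inr p => p.2)
    refine ⟨k, fun i hi => hk ?_⟩
    exact Finset.mem_image.2 ⟨_, hi, rfl⟩
  refine ⟨⟨cst (lf d k), cst_mem (okp_lf d k)⟩, hF _ ?_, cst_lf_per q d k, cst_lf_ne q hq d k⟩
  rintro ⟨i, s | ⟨d', k'⟩⟩ ha
  · rfl
  · simp only [cst, lf, pt, decide_eq_false_iff_not]
    intro h
    rw [h] at ha
    exact hk i ha

/-- members of `FF` are constant, with value a point of `C` -/
theorem FF_form (q : List ℕ → ℕ) (hq : ∀ d, (q d + 1).Prime) {p : ℕ} (hp : p.Prime) {y : X0}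
    (hy : y ∈ FF q p) : ∃ x, Okp x ∧ y.1 = cst x ∧ (∀ d k, x (Sum.inr (d, k)) = false) ∧
      x (Sum.inl []) = true := by
  obtain ⟨x, hx, hyx, hfix⟩ := fixed_cst q hy.1
  refine ⟨x, hx, hyx, ?_, ?_⟩
  · intro d k
    by_contra hcon
    have hcon' : x (Sum.inr (d, k)) = true := by simpa using hcon
    have h1 := hfix (Sum.inr (d, k))
    rw [sg_symm_inr, hcon'] at h1
    have h2 := hx.leafuniq _ _ _ h1 hcon'
    have h3 := (rot_symm_iter_eq_iff (q d) 1 k).1 h2
    have h4 := Nat.le_of_dvd one_pos h3
    have h5 := (hq d).two_le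
    omega
  · by_contra hcon
    have hcon' : x (Sum.inl []) = false := by simpa using hcon
    have hx0 : ∀ a, x a = false := hx.eq_zero hcon'
    -- a neighbourhood
    have h2 := mem_closure_iff.1 hy.2 {z : X0 | ∀ ia ∈ (Finset.Icc (0 : ℤ) p).image
      (fun i => ((i, Sum.inl []) : ℤ × A)), z.1 ia = (fun _ => false) ia}
      (isOpen_agree _ _) (by
        intro ia _
        rw [hyx]
        exact hx0 _)
    obtain ⟨z, hz1, hz2, hz3⟩ := h2
    have hper0 : ∀ i, z.1 (i + p, Sum.inl []) = z.1 (i, Sum.inl []) := by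
      intro i
      have := congrFun (congrArg Subtype.val hz2) (i, Sum.inl [])
      rw [T_iter_val, TT_iter, sg_symm_iter_inl] at this
      exact this
    have hpz : (0 : ℤ) < p := by exact_mod_cast hp.pos
    have hall : ∀ i, z.1 (i, Sum.inl []) = false := by
      have h4 : ∀ (m : ℕ) (i : ℤ), z.1 (i + m * p, Sum.inl []) = z.1 (i, Sum.inl []) := by
        intro m
        induction m with
        | zero => intro i; simp
        | succ m ih =>
          intro i
          have : i + ((m + 1 : ℕ) : ℤ) * p = (i + m * p) + p := by push_cast; ring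
          rw [this, hper0, ih]
      intro i
      have h5 : i = i % p + (i / p) * p := by
        have := Int.emod_add_mul_ediv i p
        linarith [mul_comm (i / (p : ℤ)) (p : ℤ)]
      have h6 : z.1 (i % p, Sum.inl []) = false := by
        refine hz1 (i % p, Sum.inl []) ?_
        rw [Finset.mem_image]
        exact ⟨i % p, Finset.mem_Icc.2 ⟨Int.emod_nonneg i hpz.ne',
          (Int.emod_lt_of_pos i hpz).le⟩, rfl⟩
      rcases Int.eq_nat_or_neg (i / p) with ⟨m, hm | hm⟩
      · rw [h5, hm, h4]
        exact h6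
      · have h7 : i % p = i + m * p := by rw [hm] at h5; linarith
        rw [h7, h4] at h6
        exact h6
    apply hz3
    refine Subtype.ext (funext fun ia => ?_)
    obtain ⟨i, a⟩ := ia
    rw [T_val, TT, (z.2.1 _).eq_zero (hall _), (z.2.1 _).eq_zero (hall _)]

end Pool.Agent.Q203.TR
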