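import Pool.Agent.Q203.TR.Dyn

set_option autoImplicit false

open Set Topology Filter

namespace Pool.Agent.Q203.TR

/-- the fixed point attached to a node -/
def P (d : List ℕ) : X0 := ⟨cst (pt d), cst_mem (okp_pt d)⟩

theorem P_inj : Function.Injective P := by
  intro d d' h
  have h1 := congrFun (congrArg Subtype.val h) (0, Sum.inl d)
  have h2 := congrFun (congrArg Subtype.val h) (0, Sum.inl d')
  simp only [P, cst, pt] at h1 h2
  have h3 : d <+: d' := by simpa using h1.symm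
  have h4 : d' <+: d := by simpa using h2
  exact h3.eq_of_length (le_antisymm h3.length_le h4.length_le)

/-- admissible period functions -/
structure Adm (q : List ℕ → ℕ) : Prop where
  prime : ∀ d, (q d + 1).Prime
  len : ∀ d d', q d = q d' → d.length = d'.length

/-- isolated points of a set -/
def Iso (S : Set X0) (y : X0) : Prop := y ∈ S ∧ ∃ O : Set X0, IsOpen O ∧ y ∈ O ∧ S ∩ O ⊆ {y}

theorem lf_of_near (q : List ℕ → ℕ) (hq : ∀ d, (q d + 1).Prime) {p : ℕ} (hp : p.Prime) {y : X0}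
    (hy : y ∈ FF q p) (F : Finset (ℤ × A)) : ∃ d k, q d + 1 = p ∧
      ∀ ia ∈ F, cst (lf d k) ia = y.1 ia := by
  classical
  obtain ⟨x, hx, hyx, hx1, hx2⟩ := FF_form q hq hp hy
  have h2 := mem_closure_iff.1 hy.2 {z : X0 | ∀ ia ∈ F ∪ (Finset.Icc (0 : ℤ) p).image
    (fun i => ((i, Sum.inl []) : ℤ × A)), z.1 ia = y.1 ia} (isOpen_agree _ _) (by intro ia _; rfl)
  obtain ⟨z, hz1, hz2, hz3⟩ := h2
  obtain ⟨d, k, hz, hdp⟩ := per_of q hq hp hz2 hz3 (by
    intro i hi1 hi2
    rw [hz1 (i, Sum.inl []) (Finset.mem_union_right _ (Finset.mem_image.2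
      ⟨i, Finset.mem_Icc.2 ⟨hi1, hi2⟩, rfl⟩)), hyx]
    exact hx2)
  refine ⟨d, k, hdp, fun ia hia => ?_⟩
  rw [← hz]
  exact hz1 ia (Finset.mem_union_left _ hia)

theorem iso_pt {q : List ℕ → ℕ} (hq : Adm q) (d : List ℕ) : Iso (FF q (q d + 1)) (P d) := by
  refine ⟨pt_mem_FF q hq.prime d, {z : X0 | ∀ ia ∈ ({((0 : ℤ), Sum.inl d)} : Finset (ℤ × A)),
    z.1 ia = (fun _ => true) ia}, isOpen_agree _ _, ?_, ?_⟩
  · intro ia hia
    rw [Finset.mem_singleton] at hia
    rw [hia]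
    simp [P, cst, pt]
  · rintro y ⟨hy1, hy2⟩
    rw [mem_singleton_iff]
    obtain ⟨x, hx, hyx, hx1, hx2⟩ := FF_form q hq.prime (hq.prime d) hy1
    have hxd : x (Sum.inl d) = true := by
      have := hy2 (0, Sum.inl d) (Finset.mem_singleton_self _)
      rw [hyx] at this
      exact this
    refine Subtype.ext ?_
    rw [hyx]
    funext ia
    obtain ⟨i, s | ⟨d', k'⟩⟩ := ia
    · simp only [P, cst, pt]
      rw [Bool.eq_iff_iff, decide_eq_true_eq]
      constructor
      · intro hs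
        by_contra hsd
        have hds : d <+: s := (hx.chain s d hs hxd).resolve_left hsd
        obtain ⟨d', k', hd', hag⟩ := lf_of_near q hq.prime (hq.prime d) hy1 {((0 : ℤ), Sum.inl s)}
        have h3 := hag (0, Sum.inl s) (Finset.mem_singleton_self _)
        rw [hyx] at h3
        simp only [cst, lf, hs, decide_eq_true_eq] at h3
        have h4 := hq.len d' d (by omega)
        have h5 := h3.length_le
        have h6 := hds.length_le
        have h7 : d = s := hds.eq_of_length (by omega)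
        exact hsd (h7 ▸ List.prefix_rfl)
      · intro hs
        exact hx.down s d hs hxd
    · simp only [P, cst, pt]
      exact hx1 d' k'

theorem pt_of_iso {q : List ℕ → ℕ} (hq : Adm q) {p : ℕ} (hp : p.Prime) {y : X0}
    (hy : Iso (FF q p) y) : ∃ d, q d + 1 = p ∧ y = P d := by
  classical
  obtain ⟨hy1, O, hO, hyO, hsub⟩ := hy
  obtain ⟨F, hF⟩ := exists_finset hO hyO
  obtain ⟨x, hx, hyx, hx1, hx2⟩ := FF_form q hq.prime hp hy1
  obtain ⟨d, k, hdp, hag⟩ := lf_of_near q hq.prime hp hy1 F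
  refine ⟨d, hdp, ?_⟩
  have h1 : P d ∈ O := by
    apply hF
    rintro ⟨i, s | ⟨d', k'⟩⟩ ha
    · exact hag _ ha
    · rw [hyx]
      exact (hx1 d' k').symm
  have h2 : P d ∈ FF q p := by
    rw [← hdp]
    exact pt_mem_FF q hq.prime d
  exact (hsub ⟨h2, h1⟩).symm

theorem iter_conj {q q' : List ℕ → ℕ} (h : X0 ≃ₜ X0) (hc : ∀ y, h (T q y) = T q' (h y)) (n : ℕ)
    (y : X0) : h ((T q)^[n] y) = (T q')^[n] (h y) := by
  induction n with
  | zero => rfl
  | succ n ih => rw [Function.iterate_succ_apply', Function.iterate_succ_apply', hc, ih]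

theorem FF_conj {q q' : List ℕ → ℕ} (h : X0 ≃ₜ X0) (hc : ∀ y, h (T q y) = T q' (h y)) (p : ℕ)
    {y : X0} (hy : y ∈ FF q p) : h y ∈ FF q' p := by
  refine ⟨by rw [← hc, hy.1], ?_⟩
  have h1 : h y ∈ h '' closure {z : X0 | (T q)^[p] z = z ∧ T q z ≠ z} := ⟨y, hy.2, rfl⟩
  have h2 := image_closure_subset_closure_image h.continuous h1
  refine closure_mono ?_ h2
  rintro _ ⟨z, ⟨hz1, hz2⟩, rfl⟩
  refine ⟨by rw [← iter_conj h hc, hz1], ?_⟩
  intro h3
  rw [← hc] at h3
  exact hz2 (h.injective h3)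

theorem conj_symm {q q' : List ℕ → ℕ} (h : X0 ≃ₜ X0) (hc : ∀ y, h (T q y) = T q' (h y)) (y : X0) :
    h.symm (T q' y) = T q (h.symm y) := by
  apply h.injective
  rw [h.apply_symm_apply, hc, h.apply_symm_apply]

theorem Iso_conj {q q' : List ℕ → ℕ} (h : X0 ≃ₜ X0) (hc : ∀ y, h (T q y) = T q' (h y)) (p : ℕ)
    {y : X0} (hy : Iso (FF q p) y) : Iso (FF q' p) (h y) := by
  obtain ⟨h1, O, hO, hyO, hsub⟩ := hy
  refine ⟨FF_conj h hc p h1, h.symm ⁻¹' O, hO.preimage h.symm.continuous, ?_, ?_⟩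
  · rw [mem_preimage, h.symm_apply_apply]
    exact hyO
  · rintro z ⟨hz1, hz2⟩
    have h3 := FF_conj h.symm (conj_symm h hc) p hz1
    have h4 := hsub ⟨h3, hz2⟩
    rw [mem_singleton_iff] at h4 ⊢
    rw [← h4, h.apply_symm_apply]

/-- the combinatorial content of a conjugacy -/
theorem exists_eta {q q' : List ℕ → ℕ} (hq : Adm q) (hq' : Adm q') (h : X0 ≃ₜ X0)
    (hc : ∀ y, h (T q y) = T q' (h y)) :
    ∃ η : List ℕ → List ℕ, (∀ d, h (P d) = P (η d)) ∧ (∀ d, q' (η d) = q d) ∧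
      ∀ d, {a : ℕ | ¬ η d <+: η (d ++ [a])}.Finite := by
  have h1 : ∀ d, ∃ d', q' d' + 1 = q d + 1 ∧ h (P d) = P d' := fun d =>
    pt_of_iso hq' (hq.prime d) (Iso_conj h hc _ (iso_pt hq d))
  choose η hη1 hη2 using h1
  refine ⟨η, hη2, fun d => by have := hη1 d; omega, fun d => ?_⟩
  -- continuity
  have hO : IsOpen (h ⁻¹' {z : X0 | ∀ ia ∈ ({((0 : ℤ), Sum.inl (η d))} : Finset (ℤ × A)),
      z.1 ia = (fun _ => true) ia}) := (isOpen_agree _ _).preimage h.continuous
  obtain ⟨F, hF⟩ := exists_finset hO (y := P d) (by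
    intro ia hia
    rw [Finset.mem_singleton] at hia
    rw [hia, hη2]
    simp [P, cst, pt])
  classical
  let F' : Finset ℕ := F.image fun ia : ℤ × A =>
    match ia.2 with
    | Sum.inl s => s.getLastD 0
    | Sum.inr _ => 0
  refine F'.finite_toSet.subset ?_
  intro a ha
  by_contra haF
  apply ha
  have h2 : P (d ++ [a]) ∈ h ⁻¹' {z : X0 | ∀ ia ∈ ({((0 : ℤ), Sum.inl (η d))} : Finset (ℤ × A)),
      z.1 ia = (fun _ => true) ia} := by
    apply hF
    rintro ⟨i, s | ⟨d', k'⟩⟩ hia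
    · simp only [P, cst, pt]
      rw [decide_eq_decide]
      constructor
      · intro hs
        rcases List.prefix_concat_iff.1 (by simpa using hs : s <+: d ++ [a]) with h3 | h3
        · exfalso
          apply haF
          refine Finset.mem_coe.2 (Finset.mem_image.2 ⟨_, hia, ?_⟩)
          simp [h3]
        · exact h3
      · intro hs
        exact hs.trans (List.prefix_append _ _)
    · rfl
  have h3 := h2 (0, Sum.inl (η d)) (Finset.mem_singleton_self _)
  rw [hη2] at h3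
  simpa [P, cst, pt] using h3

end Pool.Agent.Q203.TR
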