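import Mathlib

set_option autoImplicit false

open Set

namespace Pool.Agent.Q203.TR

section code

variable {V : Type*} [DecidableEq V]

/-- vertices of the coding graph -/
abbrev CV (V : Type*) := V ⊕ (V × V × Fin 5)

/-- directed edges of the coding graph -/
def dcode (H : V → V → Bool) : CV V → CV V → Bool
  | Sum.inl v, Sum.inr (b, c, i) => (decide (i = 0) && decide (v = b)) ||
      (decide (i = 1) && decide (v = c))
  | Sum.inr (b, c, i), Sum.inr (b', c', j) => decide (b = b') && decide (c = c') &&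
      ((decide (i = 0) && decide (j = 1)) || (decide (i = 1) && decide (j = 2)) ||
      (decide (i = 1) && decide (j = 3)) || (decide (i = 1) && decide (j = 4) && H b c) ||
      (decide (i = 0) && decide (j = 4) && !(H b c)))
  | _, _ => false

/-- the coding graph -/
def gcode (H : V → V → Bool) (x y : CV V) : Bool := dcode H x y || dcode H y x

theorem gcode_symm (H : V → V → Bool) (x y : CV V) : gcode H x y = gcode H y x := by
  simp [gcode, Bool.or_comm]

theorem gcode_irrefl (H : V → V → Bool) (x : CV V) : gcode H x x = false := by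
  rcases x with v | ⟨b, c, i⟩
  · rfl
  · simp only [gcode, dcode, Bool.or_self]
    fin_cases i <;> simp

theorem gcode_inl_inl (H : V → V → Bool) (v w : V) :
    gcode H (Sum.inl v) (Sum.inl w) = false := rfl

theorem gcode_inl_inr (H : V → V → Bool) (v b c : V) (i : Fin 5) :
    gcode H (Sum.inl v) (Sum.inr (b, c, i)) = true ↔ (i = 0 ∧ v = b) ∨ (i = 1 ∧ v = c) := by
  simp [gcode, dcode]

theorem gcode_inr_inr (H : V → V → Bool) (b c b' c' : V) (i j : Fin 5) :
    gcode H (Sum.inr (b, c, i)) (Sum.inr (b', c', j)) = true → b = b' ∧ c = c' := by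
  simp only [gcode, dcode, Bool.or_eq_true, Bool.and_eq_true, decide_eq_true_eq]
  rintro (h | h)
  · exact h.1
  · exact ⟨h.1.1.symm, h.1.2.symm⟩

/-- adjacency inside one gadget -/
def adj5 (e : Bool) (i j : Fin 5) : Bool :=
  let d : Fin 5 → Fin 5 → Bool := fun i j =>
    ((decide (i = 0) && decide (j = 1)) || (decide (i = 1) && decide (j = 2)) ||
      (decide (i = 1) && decide (j = 3)) || (decide (i = 1) && decide (j = 4) && e) ||
      (decide (i = 0) && decide (j = 4) && !e))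
  d i j || d j i

theorem gcode_same (H : V → V → Bool) (b c : V) (i j : Fin 5) :
    gcode H (Sum.inr (b, c, i)) (Sum.inr (b, c, j)) = adj5 (H b c) i j := by
  simp [gcode, dcode, adj5]

section inv

variable {W : Type*}

/-- vertices with exactly one neighbour -/
def Leaf (g : W → W → Bool) (x : W) : Prop := ∃! y, g x y = true

/-- vertices with at least two leaves attached -/
def QQ (g : W → W → Bool) (x : W) : Prop :=
  ∃ y z, y ≠ z ∧ Leaf g y ∧ Leaf g z ∧ g x y = true ∧ g x z = true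

/-- vertices with at least three leaves attached -/
def Q3 (g : W → W → Bool) (x : W) : Prop :=
  ∃ y z w, y ≠ z ∧ y ≠ w ∧ z ≠ w ∧ Leaf g y ∧ Leaf g z ∧ Leaf g w ∧ g x y = true ∧
    g x z = true ∧ g x w = true

/-- elements -/
def Elem (g : W → W → Bool) (x : W) : Prop :=
  ¬ QQ g x ∧ ∃ y z, y ≠ z ∧ QQ g y ∧ QQ g z ∧ g x y = true ∧ g x z = true

/-- the coded relation -/
def Rel (g : W → W → Bool) (x y : W) : Prop :=
  ∃ p q, g x p = true ∧ g p q = true ∧ g q y = true ∧ ¬ QQ g p ∧ ¬ Elem g p ∧ Q3 g q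

variable {W' : Type*} {g : W → W → Bool} {g' : W' → W' → Bool}

theorem Leaf_iso (f : W ≃ W') (hf : ∀ a b, g a b = g' (f a) (f b)) (x : W) :
    Leaf g x → Leaf g' (f x) := by
  rintro ⟨y, hy, huniq⟩
  refine ⟨f y, ?_, ?_⟩
  · show g' (f x) (f y) = true
    rw [← hf]; exact hy
  · intro z hz
    obtain ⟨z, rfl⟩ := f.surjective z
    rw [← hf] at hz
    rw [huniq z hz]

theorem iso_symm (f : W ≃ W') (hf : ∀ a b, g a b = g' (f a) (f b)) (a b : W') :
    g' a b = g (f.symm a) (f.symm b) := by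
  rw [hf]
  simp

theorem QQ_iso (f : W ≃ W') (hf : ∀ a b, g a b = g' (f a) (f b)) (x : W) :
    QQ g x → QQ g' (f x) := by
  rintro ⟨y, z, h1, h2, h3, h4, h5⟩
  exact ⟨f y, f z, fun h => h1 (f.injective h), Leaf_iso f hf y h2, Leaf_iso f hf z h3,
    by rw [← hf]; exact h4, by rw [← hf]; exact h5⟩

theorem QQ_iso_iff (f : W ≃ W') (hf : ∀ a b, g a b = g' (f a) (f b)) (x : W) :
    QQ g x ↔ QQ g' (f x) := by
  refine ⟨QQ_iso f hf x, fun h => ?_⟩
  have := QQ_iso f.symm (iso_symm f hf) _ h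
  simpa using this

theorem Q3_iso (f : W ≃ W') (hf : ∀ a b, g a b = g' (f a) (f b)) (x : W) :
    Q3 g x → Q3 g' (f x) := by
  rintro ⟨y, z, w, h1, h2, h3, h4, h5, h6, h7, h8, h9⟩
  exact ⟨f y, f z, f w, fun h => h1 (f.injective h), fun h => h2 (f.injective h),
    fun h => h3 (f.injective h), Leaf_iso f hf y h4, Leaf_iso f hf z h5, Leaf_iso f hf w h6,
    by rw [← hf]; exact h7, by rw [← hf]; exact h8, by rw [← hf]; exact h9⟩

theorem Elem_iso (f : W ≃ W') (hf : ∀ a b, g a b = g' (f a) (f b)) (x : W) :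
    Elem g x → Elem g' (f x) := by
  rintro ⟨h0, y, z, h1, h2, h3, h4, h5⟩
  exact ⟨fun h => h0 ((QQ_iso_iff f hf x).2 h), f y, f z, fun h => h1 (f.injective h),
    QQ_iso f hf y h2, QQ_iso f hf z h3, by rw [← hf]; exact h4, by rw [← hf]; exact h5⟩

theorem Elem_iso_iff (f : W ≃ W') (hf : ∀ a b, g a b = g' (f a) (f b)) (x : W) :
    Elem g x ↔ Elem g' (f x) := by
  refine ⟨Elem_iso f hf x, fun h => ?_⟩
  have := Elem_iso f.symm (iso_symm f hf) _ h
  simpa using this

theorem Rel_iso (f : W ≃ W') (hf : ∀ a b, g a b = g' (f a) (f b)) (x y : W) :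
    Rel g x y → Rel g' (f x) (f y) := by
  rintro ⟨p, q, h1, h2, h3, h4, h5, h6⟩
  exact ⟨f p, f q, by rw [← hf]; exact h1, by rw [← hf]; exact h2, by rw [← hf]; exact h3,
    fun h => h4 ((QQ_iso_iff f hf p).2 h), fun h => h5 ((Elem_iso_iff f hf p).2 h),
    Q3_iso f hf q h6⟩

theorem Rel_iso_iff (f : W ≃ W') (hf : ∀ a b, g a b = g' (f a) (f b)) (x y : W) :
    Rel g x y ↔ Rel g' (f x) (f y) := by
  refine ⟨Rel_iso f hf x y, fun h => ?_⟩
  have := Rel_iso f.symm (iso_symm f hf) _ _ h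
  simpa using this

end inv

theorem leaf_iff [Nontrivial V] (H : V → V → Bool) (x : CV V) :
    Leaf (gcode H) x ↔ ∃ b c i, x = Sum.inr (b, c, i) ∧ (2 : Fin 5) ≤ i := by
  constructor
  · rintro ⟨y, hy, huniq⟩
    rcases x with v | ⟨b, c, i⟩
    · exfalso
      obtain ⟨w, hw⟩ := exists_ne v
      have h1 := huniq (Sum.inr (v, v, 0)) ((gcode_inl_inr H v v v 0).2 (Or.inl ⟨rfl, rfl⟩))
      have h2 := huniq (Sum.inr (v, w, 0)) ((gcode_inl_inr H v v w 0).2 (Or.inl ⟨rfl, rfl⟩))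
      rw [← h1] at h2
      simp at h2
      exact hw h2
    · refine ⟨b, c, i, rfl, ?_⟩
      by_contra hi
      have key0 : ∀ i : Fin 5, ¬ (2 ≤ i) → i = 0 ∨ i = 1 := by decide
      rcases key0 i hi with rfl | rfl
      · have h1 := huniq (Sum.inl b) (by
          show gcode H _ _ = true
          rw [gcode_symm]
          exact (gcode_inl_inr H b b c 0).2 (Or.inl ⟨rfl, rfl⟩))
        have key1 : ∀ e, adj5 e 0 1 = true := by decide
        have h2 := huniq (Sum.inr (b, c, 1)) (by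
          show gcode H _ _ = true
          rw [gcode_same]
          exact key1 _)
        rw [← h1] at h2
        simp at h2
      · have h1 := huniq (Sum.inl c) (by
          show gcode H _ _ = true
          rw [gcode_symm]
          exact (gcode_inl_inr H c b c 1).2 (Or.inr ⟨rfl, rfl⟩))
        have key1 : ∀ e, adj5 e 1 0 = true := by decide
        have h2 := huniq (Sum.inr (b, c, 0)) (by
          show gcode H _ _ = true
          rw [gcode_same]
          exact key1 _)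
        rw [← h1] at h2
        simp at h2
  · rintro ⟨b, c, i, rfl, hi⟩
    have key : ∀ e : Bool, ∃ j, adj5 e i j = true ∧ ∀ j', adj5 e i j' = true → j' = j := by
      revert i
      decide
    obtain ⟨j, hj, hjuniq⟩ := key (H b c)
    refine ⟨Sum.inr (b, c, j), ?_, ?_⟩
    · show gcode H _ _ = true
      rw [gcode_same]; exact hj
    · rintro (v | ⟨b', c', j'⟩) hy
      · exfalso
        have hy' : gcode H (Sum.inl v) (Sum.inr (b, c, i)) = true := by rw [gcode_symm]; exact hy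
        rw [gcode_inl_inr] at hy'
        rcases hy' with h | h
        · rw [h.1] at hi; exact absurd hi (by decide)
        · rw [h.1] at hi; exact absurd hi (by decide)
      · obtain ⟨rfl, rfl⟩ := gcode_inr_inr H _ _ _ _ _ _ hy
        have hy' : gcode H (Sum.inr (b, c, i)) (Sum.inr (b, c, j')) = true := hy
        rw [gcode_same] at hy'
        rw [hjuniq j' hy']

theorem QQ_iff [Nontrivial V] (H : V → V → Bool) (x : CV V) :
    QQ (gcode H) x ↔ ∃ b c, x = Sum.inr (b, c, 1) := by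
  constructor
  · rintro ⟨y, z, hyz, hy, hz, hxy, hxz⟩
    obtain ⟨b, c, i, rfl, hi⟩ := (leaf_iff H y).1 hy
    obtain ⟨b', c', j, rfl, hj⟩ := (leaf_iff H z).1 hz
    rcases x with v | ⟨b0, c0, k⟩
    · exfalso
      rw [gcode_inl_inr] at hxy
      rcases hxy with h | h
      · rw [h.1] at hi; exact absurd hi (by decide)
      · rw [h.1] at hi; exact absurd hi (by decide)
    · obtain ⟨rfl, rfl⟩ := gcode_inr_inr H _ _ _ _ _ _ hxy
      obtain ⟨rfl, rfl⟩ := gcode_inr_inr H _ _ _ _ _ _ hxz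
      rw [gcode_same] at hxy hxz
      have hij : i ≠ j := fun h => hyz (by rw [h])
      have key : ∀ (e : Bool) (i j k : Fin 5), i ≠ j → 2 ≤ i → 2 ≤ j → adj5 e k i = true →
          adj5 e k j = true → k = 1 := by
        decide
      exact ⟨_, _, by rw [key _ i j k hij hi hj hxy hxz]⟩
  · rintro ⟨b, c, rfl⟩
    refine ⟨Sum.inr (b, c, 2), Sum.inr (b, c, 3), by simp, (leaf_iff H _).2 ⟨b, c, 2, rfl, le_rfl⟩,
      (leaf_iff H _).2 ⟨b, c, 3, rfl, by decide⟩, ?_, ?_⟩
    · rw [gcode_same]; generalize H b c = e; cases e <;> rfl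
    · rw [gcode_same]; generalize H b c = e; cases e <;> rfl

theorem Q3_iff [Nontrivial V] (H : V → V → Bool) (b c : V) :
    Q3 (gcode H) (Sum.inr (b, c, 1)) ↔ H b c = true := by
  constructor
  · rintro ⟨y, z, w, hyz, hyw, hzw, hy, hz, hw, hxy, hxz, hxw⟩
    obtain ⟨b1, c1, i, rfl, hi⟩ := (leaf_iff H y).1 hy
    obtain ⟨b2, c2, j, rfl, hj⟩ := (leaf_iff H z).1 hz
    obtain ⟨b3, c3, k, rfl, hk⟩ := (leaf_iff H w).1 hw
    obtain ⟨rfl, rfl⟩ := gcode_inr_inr H _ _ _ _ _ _ hxy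
    obtain ⟨rfl, rfl⟩ := gcode_inr_inr H _ _ _ _ _ _ hxz
    obtain ⟨rfl, rfl⟩ := gcode_inr_inr H _ _ _ _ _ _ hxw
    rw [gcode_same] at hxy hxz hxw
    have h1 : i ≠ j := fun h => hyz (by rw [h])
    have h2 : i ≠ k := fun h => hyw (by rw [h])
    have h3 : j ≠ k := fun h => hzw (by rw [h])
    have key : ∀ (e : Bool) (i j k : Fin 5), i ≠ j → i ≠ k → j ≠ k → 2 ≤ i → 2 ≤ j → 2 ≤ k →
        adj5 e 1 i = true → adj5 e 1 j = true → adj5 e 1 k = true → e = true := by
      decide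
    exact key _ i j k h1 h2 h3 hi hj hk hxy hxz hxw
  · intro h
    refine ⟨Sum.inr (b, c, 2), Sum.inr (b, c, 3), Sum.inr (b, c, 4), by simp, by simp, by simp,
      (leaf_iff H _).2 ⟨b, c, 2, rfl, le_rfl⟩, (leaf_iff H _).2 ⟨b, c, 3, rfl, by decide⟩,
      (leaf_iff H _).2 ⟨b, c, 4, rfl, by decide⟩, ?_, ?_, ?_⟩ <;>
    · rw [gcode_same, h]; rfl

theorem Elem_iff [Nontrivial V] (H : V → V → Bool) (x : CV V) :
    Elem (gcode H) x ↔ ∃ v, x = Sum.inl v := by
  constructor
  · rintro ⟨h0, y, z, hyz, hy, hz, hxy, hxz⟩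
    obtain ⟨b, c, rfl⟩ := (QQ_iff H y).1 hy
    obtain ⟨b', c', rfl⟩ := (QQ_iff H z).1 hz
    rcases x with v | ⟨b0, c0, k⟩
    · exact ⟨v, rfl⟩
    · exfalso
      obtain ⟨rfl, rfl⟩ := gcode_inr_inr H _ _ _ _ _ _ hxy
      obtain ⟨rfl, rfl⟩ := gcode_inr_inr H _ _ _ _ _ _ hxz
      exact hyz rfl
  · rintro ⟨v, rfl⟩
    obtain ⟨w, hw⟩ := exists_ne v
    refine ⟨?_, Sum.inr (v, v, 1), Sum.inr (w, v, 1), ?_, (QQ_iff H _).2 ⟨_, _, rfl⟩,
      (QQ_iff H _).2 ⟨_, _, rfl⟩, ?_, ?_⟩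
    · intro h
      obtain ⟨b, c, hbc⟩ := (QQ_iff H _).1 h
      simp at hbc
    · intro h
      simp at h
      exact hw h.symm
    · exact (gcode_inl_inr H _ _ _ _).2 (Or.inr ⟨rfl, rfl⟩)
    · exact (gcode_inl_inr H _ _ _ _).2 (Or.inr ⟨rfl, rfl⟩)

theorem Rel_iff [Nontrivial V] (H : V → V → Bool) (v w : V) :
    Rel (gcode H) (Sum.inl v) (Sum.inl w) ↔ H v w = true := by
  constructor
  · rintro ⟨p, q, h1, h2, h3, h4, h5, h6⟩
    rcases p with b | ⟨b, c, i⟩
    · exact absurd ((Elem_iff H _).2 ⟨b, rfl⟩) h5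
    · have hq : QQ (gcode H) q := by
        obtain ⟨y, z, w, h7, -, -, h8, h9, -, h10, h11, -⟩ := h6
        exact ⟨y, z, h7, h8, h9, h10, h11⟩
      obtain ⟨b', c', rfl⟩ := (QQ_iff H _).1 hq
      obtain ⟨rfl, rfl⟩ := gcode_inr_inr H _ _ _ _ _ _ h2
      rw [gcode_inl_inr] at h1
      rcases h1 with ⟨rfl, rfl⟩ | ⟨rfl, rfl⟩
      · rw [gcode_symm, gcode_inl_inr] at h3
        rcases h3 with ⟨h, -⟩ | ⟨-, rfl⟩
        · exact absurd h (by decide)
        · exact (Q3_iff H _ _).1 h6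
      · exact absurd ((QQ_iff H _).2 ⟨_, _, rfl⟩) h4
  · intro h
    refine ⟨Sum.inr (v, w, 0), Sum.inr (v, w, 1), (gcode_inl_inr H _ _ _ _).2 (Or.inl ⟨rfl, rfl⟩),
      ?_, ?_, ?_, ?_, (Q3_iff H _ _).2 h⟩
    · rw [gcode_same]; generalize H v w = e; cases e <;> rfl
    · rw [gcode_symm]
      exact (gcode_inl_inr H _ _ _ _).2 (Or.inr ⟨rfl, rfl⟩)
    · intro h
      obtain ⟨b, c, hbc⟩ := (QQ_iff H _).1 h
      simp at hbc
    · intro h
      obtain ⟨b, hb⟩ := (Elem_iff H _).1 h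
      simp at hb

/-- isomorphisms of coding graphs come from isomorphisms of the relations -/
theorem iso_of_gcode [Nontrivial V] {H H' : V → V → Bool} (f : CV V ≃ CV V)
    (hf : ∀ x y, gcode H x y = gcode H' (f x) (f y)) :
    ∃ e : Equiv.Perm V, ∀ v w, H v w = H' (e v) (e w) := by
  have h1 : ∀ v, ∃ w, f (Sum.inl v) = Sum.inl w := fun v =>
    (Elem_iff H' _).1 ((Elem_iso_iff f hf _).1 ((Elem_iff H _).2 ⟨v, rfl⟩))
  have h2 : ∀ v, ∃ w, f.symm (Sum.inl v) = Sum.inl w := fun v =>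
    (Elem_iff H _).1 ((Elem_iso_iff f hf _).2 (by
      rw [f.apply_symm_apply]; exact (Elem_iff H' _).2 ⟨v, rfl⟩))
  choose e he using h1
  choose e' he' using h2
  refine ⟨⟨e, e', fun v => ?_, fun v => ?_⟩, fun v w => ?_⟩
  · have := f.symm_apply_apply (Sum.inl v)
    rw [he, he'] at this
    exact Sum.inl_injective this
  · have := f.apply_symm_apply (Sum.inl v)
    rw [he', he] at this
    exact Sum.inl_injective this
  · rw [Bool.eq_iff_iff]
    simp only [Equiv.coe_fn_mk]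
    rw [← Rel_iff H, ← Rel_iff H', Rel_iso_iff f hf, he, he]

theorem gcode_of_iso {H H' : V → V → Bool} (e : Equiv.Perm V)
    (he : ∀ v w, H v w = H' (e v) (e w)) :
    ∃ f : CV V ≃ CV V, ∀ x y, gcode H x y = gcode H' (f x) (f y) := by
  refine ⟨Equiv.sumCongr e (e.prodCongr (e.prodCongr (Equiv.refl _))), ?_⟩
  have hd : ∀ x y, dcode H x y = dcode H' (Equiv.sumCongr e (e.prodCongr (e.prodCongr
      (Equiv.refl _))) x) (Equiv.sumCongr e (e.prodCongr (e.prodCongr (Equiv.refl _))) y) := by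
    rintro (v | ⟨b, c, i⟩) (w | ⟨b', c', j⟩)
    · rfl
    · simp [dcode]
    · rfl
    · simp [dcode, he]
  intro x y
  simp only [gcode]
  rw [hd, hd]

end code

end Pool.Agent.Q203.TR
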