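import Mathlib
import Pool.Agent.H812R3.CantorChar

set_option autoImplicit false

open Set Topology Filter

namespace Pool.Agent.Q203.TR

/-- the nodes of the tree together with the leaves `(d, k)` -/
abbrev A := List ℕ ⊕ (List ℕ × ℕ)

/-- (codes of) points of the compact space `K ∪ {*}` -/
structure Okp (x : A → Bool) : Prop where
  down : ∀ s t : List ℕ, s <+: t → x (Sum.inl t) = true → x (Sum.inl s) = true
  chain : ∀ s t : List ℕ, x (Sum.inl s) = true → x (Sum.inl t) = true → s <+: t ∨ t <+: s
  leaf : ∀ (d : List ℕ) (k : ℕ), x (Sum.inr (d, k)) = true → x (Sum.inl d) = true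
  leafmax : ∀ (d : List ℕ) (k : ℕ) (t : List ℕ), x (Sum.inr (d, k)) = true →
    x (Sum.inl t) = true → t <+: d
  leafuniq : ∀ (d : List ℕ) (k k' : ℕ), x (Sum.inr (d, k)) = true →
    x (Sum.inr (d, k')) = true → k = k'

/-- the phase space -/
def X0 : Set (ℤ × A → Bool) :=
  {y | (∀ i, Okp fun a => y (i, a)) ∧ ∀ i, y (i, Sum.inl []) = true →
    y (i + 1, Sum.inl []) = true → ∀ a, y (i, a) = y (i + 1, a)}

theorem isClopen_coord {ι : Type*} (a : ι) : IsClopen {y : ι → Bool | y a = true} := by
  have : {y : ι → Bool | y a = true} = (fun y : ι → Bool => y a) ⁻¹' {true} := rfl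
  rw [this]
  exact (isClopen_discrete _).preimage (continuous_apply a)

theorem isClosed_imp {X : Type*} [TopologicalSpace X] {p q : X → Prop} (hp : IsOpen {x | p x})
    (hq : IsClosed {x | q x}) : IsClosed {x | p x → q x} := by
  have : {x | p x → q x} = {x | p x}ᶜ ∪ {x | q x} := by
    ext x
    simp [imp_iff_not_or]
  rw [this]
  exact hp.isClosed_compl.union hq

theorem isClosed_X0 : IsClosed X0 := by
  have h1 : X0 = ⋂ i : ℤ, ({y | Okp fun a => y (i, a)} ∩ {y | y (i, Sum.inl []) = true →
    y (i + 1, Sum.inl []) = true → ∀ a, y (i, a) = y (i + 1, a)}) := by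
    ext y
    simp only [X0, mem_ofPred_eq, mem_iInter, mem_inter_iff]
    exact forall_and.symm
  rw [h1]
  refine isClosed_iInter fun i => IsClosed.inter ?_ ?_
  · have h2 : {y : ℤ × A → Bool | Okp fun a => y (i, a)} =
        (⋂ s : List ℕ, ⋂ t : List ℕ, ⋂ _ : s <+: t,
          {y | y (i, Sum.inl t) = true → y (i, Sum.inl s) = true}) ∩
        ((⋂ s : List ℕ, ⋂ t : List ℕ, {y | y (i, Sum.inl s) = true →
          y (i, Sum.inl t) = true → s <+: t ∨ t <+: s}) ∩
        ((⋂ d : List ℕ, ⋂ k : ℕ, {y | y (i, Sum.inr (d, k)) = true → y (i, Sum.inl d) = true}) ∩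
        ((⋂ d : List ℕ, ⋂ k : ℕ, ⋂ t : List ℕ, {y | y (i, Sum.inr (d, k)) = true →
          y (i, Sum.inl t) = true → t <+: d}) ∩
        (⋂ d : List ℕ, ⋂ k : ℕ, ⋂ k' : ℕ, {y | y (i, Sum.inr (d, k)) = true →
          y (i, Sum.inr (d, k')) = true → k = k'})))) := by
      ext y
      simp only [mem_inter_iff, mem_iInter, mem_ofPred_eq]
      constructor
      · rintro ⟨h1, h2, h3, h4, h5⟩
        exact ⟨h1, h2, h3, h4, h5⟩
      · rintro ⟨h1, h2, h3, h4, h5⟩
        exact ⟨h1, h2, h3, h4, h5⟩
    rw [h2]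
    refine IsClosed.inter ?_ (IsClosed.inter ?_ (IsClosed.inter ?_ (IsClosed.inter ?_ ?_)))
    · refine isClosed_iInter fun s => isClosed_iInter fun t => isClosed_iInter fun _ => ?_
      exact isClosed_imp (isClopen_coord _).isOpen (isClopen_coord _).isClosed
    · refine isClosed_iInter fun s => isClosed_iInter fun t => ?_
      exact isClosed_imp (isClopen_coord _).isOpen (isClosed_imp (isClopen_coord _).isOpen
        isClosed_const)
    · refine isClosed_iInter fun s => isClosed_iInter fun t => ?_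
      exact isClosed_imp (isClopen_coord _).isOpen (isClopen_coord _).isClosed
    · refine isClosed_iInter fun s => isClosed_iInter fun t => isClosed_iInter fun k => ?_
      exact isClosed_imp (isClopen_coord _).isOpen (isClosed_imp (isClopen_coord _).isOpen
        isClosed_const)
    · refine isClosed_iInter fun s => isClosed_iInter fun t => isClosed_iInter fun k => ?_
      exact isClosed_imp (isClopen_coord _).isOpen (isClosed_imp (isClopen_coord _).isOpen
        isClosed_const)
  · refine isClosed_imp (isClopen_coord _).isOpen (isClosed_imp (isClopen_coord _).isOpen ?_)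
    have : {y : ℤ × A → Bool | ∀ a, y (i, a) = y (i + 1, a)} =
        ⋂ a, {y | y (i, a) = y (i + 1, a)} := by
      ext y
      simp
    rw [this]
    exact isClosed_iInter fun a => isClosed_eq (continuous_apply _) (continuous_apply _)

theorem okp_zero : Okp (fun _ => false) := by
  refine ⟨?_, ?_, ?_, ?_, ?_⟩ <;> intros <;> simp_all

theorem Okp.eq_zero {x : A → Bool} (hx : Okp x) (h : x (Sum.inl []) = false) (a : A) :
    x a = false := by
  by_contra hcon
  have hcon' : x a = true := by simpa using hcon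
  rcases a with s | ⟨d, k⟩
  · have := hx.down [] s (List.nil_prefix) hcon'
    rw [h] at this
    simp at this
  · have := hx.down [] d (List.nil_prefix) (hx.leaf d k hcon')
    rw [h] at this
    simp at this

/-- the point of `K` given by the node `d` -/
def pt (d : List ℕ) : A → Bool
  | Sum.inl t => decide (t <+: d)
  | Sum.inr _ => false

/-- the isolated point `(d, k)` of `K` -/
def lf (d : List ℕ) (k : ℕ) : A → Bool
  | Sum.inl t => decide (t <+: d)
  | Sum.inr p => decide (p = (d, k))

theorem okp_pt (d : List ℕ) : Okp (pt d) := by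
  refine ⟨?_, ?_, ?_, ?_, ?_⟩
  · intro s t hst ht
    simp only [pt, decide_eq_true_eq] at ht ⊢
    exact hst.trans ht
  · intro s t hs ht
    simp only [pt, decide_eq_true_eq] at hs ht
    exact List.prefix_or_prefix_of_prefix hs ht
  · intro d k h
    simp [pt] at h
  · intro d k t h
    simp [pt] at h
  · intro d k t h
    simp [pt] at h

theorem okp_lf (d : List ℕ) (k : ℕ) : Okp (lf d k) := by
  refine ⟨?_, ?_, ?_, ?_, ?_⟩
  · intro s t hst ht
    simp only [lf, decide_eq_true_eq] at ht ⊢
    exact hst.trans ht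
  · intro s t hs ht
    simp only [lf, decide_eq_true_eq] at hs ht
    exact List.prefix_or_prefix_of_prefix hs ht
  · intro d' k' h
    simp only [lf, decide_eq_true_eq] at h ⊢
    simp only [Prod.mk.injEq] at h
    rw [h.1]
  · intro d' k' t h ht
    simp only [lf, decide_eq_true_eq] at h ht
    simp only [Prod.mk.injEq] at h
    rw [h.1]
    exact ht
  · intro d' k' k'' h h'
    simp only [lf, decide_eq_true_eq, Prod.mk.injEq] at h h'
    rw [h.2, h'.2]

theorem Okp.eq_lf {x : A → Bool} (hx : Okp x) {d : List ℕ} {k : ℕ}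
    (h : x (Sum.inr (d, k)) = true) : x = lf d k := by
  funext a
  rw [Bool.eq_iff_iff]
  rcases a with t | ⟨d', k'⟩
  · simp only [lf, decide_eq_true_eq]
    constructor
    · intro ht
      exact hx.leafmax d k t h ht
    · intro ht
      exact hx.down t d ht (hx.leaf d k h)
  · simp only [lf, decide_eq_true_eq]
    constructor
    · intro h'
      have h1 : d' <+: d := hx.leafmax d k d' h (hx.leaf d' k' h')
      have h2 : d <+: d' := hx.leafmax d' k' d h' (hx.leaf d k h)
      have h3 : d' = d := h1.eq_of_length (le_antisymm h1.length_le h2.length_le)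
      subst h3
      rw [hx.leafuniq d' k k' h h']
    · intro h'
      simp only [Prod.mk.injEq] at h'
      rw [h'.1, h'.2]
      exact h

/-- constant sequences -/
def cst (x : A → Bool) : ℤ × A → Bool := fun p => x p.2

theorem cst_mem {x : A → Bool} (hx : Okp x) : cst x ∈ X0 :=
  ⟨fun _ => hx, fun _ _ _ _ => rfl⟩

/-- rotation of `ℕ` in cycles of length `n + 1` -/
def rot (n : ℕ) : Equiv.Perm ℕ :=
  (Nat.divModEquiv (n + 1)).trans (((Equiv.refl ℕ).prodCongr (Equiv.addRight (1 : Fin (n + 1)))).trans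
    (Nat.divModEquiv (n + 1)).symm)

theorem rot_iter (n m k : ℕ) : (rot n)^[m] k = (Nat.divModEquiv (n + 1)).symm
    ((Nat.divModEquiv (n + 1) k).1, (Nat.divModEquiv (n + 1) k).2 + Fin.ofNat (n + 1) m) := by
  induction m with
  | zero =>
    have : Fin.ofNat (n + 1) 0 = 0 := rfl
    rw [this, add_zero]
    exact ((Nat.divModEquiv (n + 1)).symm_apply_apply k).symm
  | succ m ih =>
    rw [Function.iterate_succ_apply', ih]
    simp only [rot, Equiv.trans_apply, Equiv.apply_symm_apply, Equiv.prodCongr_apply, Prod.map,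
      Equiv.refl_apply, Equiv.coe_addRight]
    congr 2
    rw [add_assoc]
    congr 1
    apply Fin.ext
    simp [Fin.val_add, Fin.ofNat]

theorem rot_iter_eq_iff (n m k : ℕ) : (rot n)^[m] k = k ↔ (n + 1) ∣ m := by
  rw [rot_iter, Equiv.symm_apply_eq]
  have key : Fin.ofNat (n + 1) m = 0 ↔ (n + 1) ∣ m := by
    rw [Fin.ext_iff]
    simp [Fin.ofNat, Nat.dvd_iff_mod_eq_zero]
  constructor
  · intro h
    have h1 : (Nat.divModEquiv (n + 1) k).2 + Fin.ofNat (n + 1) m = (Nat.divModEquiv (n + 1) k).2 :=
      congrArg Prod.snd h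
    exact key.1 (by simpa using h1)
  · intro h
    rw [key.2 h, add_zero]

/-- the permutation of the nodes and leaves -/
def sg (q : List ℕ → ℕ) : Equiv.Perm A :=
  Equiv.sumCongr (Equiv.refl _) ⟨fun p => (p.1, rot (q p.1) p.2),
    fun p => (p.1, (rot (q p.1)).symm p.2), fun p => by simp, fun p => by simp⟩

@[simp] theorem sg_inl (q : List ℕ → ℕ) (s : List ℕ) : sg q (Sum.inl s) = Sum.inl s := rfl
@[simp] theorem sg_inr (q : List ℕ → ℕ) (d : List ℕ) (k : ℕ) :
    sg q (Sum.inr (d, k)) = Sum.inr (d, rot (q d) k) := rfl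
@[simp] theorem sg_symm_inl (q : List ℕ → ℕ) (s : List ℕ) :
    (sg q).symm (Sum.inl s) = Sum.inl s := rfl
@[simp] theorem sg_symm_inr (q : List ℕ → ℕ) (d : List ℕ) (k : ℕ) :
    (sg q).symm (Sum.inr (d, k)) = Sum.inr (d, (rot (q d)).symm k) := rfl

theorem okp_sg {x : A → Bool} (hx : Okp x) (q : List ℕ → ℕ) : Okp fun a => x (sg q a) := by
  refine ⟨?_, ?_, ?_, ?_, ?_⟩
  · intro s t hst ht
    exact hx.down s t hst ht
  · intro s t hs ht
    exact hx.chain s t hs ht
  · intro d k h
    exact hx.leaf d _ h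
  · intro d k t h ht
    exact hx.leafmax d _ t h ht
  · intro d k k' h h'
    exact (rot (q d)).injective (hx.leafuniq d _ _ h h')

theorem okp_sg_symm {x : A → Bool} (hx : Okp x) (q : List ℕ → ℕ) :
    Okp fun a => x ((sg q).symm a) := by
  refine ⟨?_, ?_, ?_, ?_, ?_⟩
  · intro s t hst ht
    exact hx.down s t hst ht
  · intro s t hs ht
    exact hx.chain s t hs ht
  · intro d k h
    exact hx.leaf d _ h
  · intro d k t h ht
    exact hx.leafmax d _ t h ht
  · intro d k k' h h'
    exact (rot (q d)).symm.injective (hx.leafuniq d _ _ h h')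

/-- the map on all sequences -/
def TT (q : List ℕ → ℕ) (y : ℤ × A → Bool) : ℤ × A → Bool :=
  fun p => y (p.1 + 1, (sg q).symm p.2)

/-- its inverse -/
def TI (q : List ℕ → ℕ) (y : ℤ × A → Bool) : ℤ × A → Bool :=
  fun p => y (p.1 - 1, sg q p.2)

theorem TT_mem (q : List ℕ → ℕ) {y : ℤ × A → Bool} (hy : y ∈ X0) : TT q y ∈ X0 := by
  refine ⟨fun i => okp_sg_symm (hy.1 (i + 1)) q, fun i h1 h2 a => ?_⟩
  exact hy.2 (i + 1) h1 h2 _

theorem TI_mem (q : List ℕ → ℕ) {y : ℤ × A → Bool} (hy : y ∈ X0) : TI q y ∈ X0 := by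
  refine ⟨fun i => okp_sg (hy.1 (i - 1)) q, fun i h1 h2 a => ?_⟩
  have h2' : y (i - 1 + 1, Sum.inl []) = true := by
    have : i - 1 + 1 = i + 1 - 1 := by ring
    rw [this]
    exact h2
  have := hy.2 (i - 1) h1 h2' (sg q a)
  simp only [TI]
  rw [this]
  congr 2
  ring

theorem TT_TI (q : List ℕ → ℕ) (y : ℤ × A → Bool) : TT q (TI q y) = y := by
  funext p
  simp [TT, TI]

theorem TI_TT (q : List ℕ → ℕ) (y : ℤ × A → Bool) : TI q (TT q y) = y := by
  funext p
  simp [TT, TI]

/-- `(q, y) ↦ T_q y` is continuous -/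
theorem continuous_TT : Continuous fun p : (List ℕ → ℕ) × (ℤ × A → Bool) => TT p.1 p.2 := by
  refine continuous_pi fun ia => ?_
  rcases ia with ⟨i, s | ⟨d, k⟩⟩
  · exact (continuous_apply ((i + 1, Sum.inl s) : ℤ × A)).comp
      (continuous_snd (X := List ℕ → ℕ) (Y := ℤ × A → Bool))
  · have h1 : Continuous fun r : ℕ × (ℤ × A → Bool) =>
        r.2 (i + 1, Sum.inr (d, (rot r.1).symm k)) := by
      refine continuous_prod_of_discrete_left.2 fun n => ?_
      exact continuous_apply (i + 1, (Sum.inr (d, (rot n).symm k) : A))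
    have h2 : Continuous fun p : (List ℕ → ℕ) × (ℤ × A → Bool) => (p.1 d, p.2) :=
      ((continuous_apply d).comp continuous_fst).prodMk continuous_snd
    exact h1.comp h2

theorem continuous_TT_right (q : List ℕ → ℕ) : Continuous (TT q) :=
  continuous_TT.comp (continuous_const.prodMk continuous_id)

theorem continuous_TI_right (q : List ℕ → ℕ) : Continuous (TI q) :=
  continuous_pi fun _ => continuous_apply _

/-- the homeomorphism of the phase space -/
def T (q : List ℕ → ℕ) : X0 ≃ₜ X0 where
  toFun y := ⟨TT q y.1, TT_mem q y.2⟩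
  invFun y := ⟨TI q y.1, TI_mem q y.2⟩
  left_inv y := Subtype.ext (TI_TT q y.1)
  right_inv y := Subtype.ext (TT_TI q y.1)
  continuous_toFun := ((continuous_TT_right q).comp continuous_subtype_val).subtype_mk _
  continuous_invFun := ((continuous_TI_right q).comp continuous_subtype_val).subtype_mk _

theorem exists_finset {ι : Type*} {Z : Set (ι → Bool)} {O : Set Z} (hO : IsOpen O) {y : Z}
    (hy : y ∈ O) : ∃ F : Finset ι, ∀ z : Z, (∀ a ∈ F, z.1 a = y.1 a) → z ∈ O := by
  obtain ⟨W, hW, rfl⟩ := isOpen_induced_iff.1 hO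
  obtain ⟨F, u, hu, hF⟩ := isOpen_pi_iff.1 hW y.1 hy
  refine ⟨F, fun z hz => hF ?_⟩
  intro a ha
  have ha' : a ∈ F := ha
  rw [hz a ha']
  exact (hu a ha').2

theorem isOpen_agree {ι : Type*} {Z : Set (ι → Bool)} (F : Finset ι) (y : ι → Bool) :
    IsOpen {z : Z | ∀ a ∈ F, z.1 a = y a} := by
  have : {z : Z | ∀ a ∈ F, z.1 a = y a} = ⋂ a ∈ F, {z : Z | z.1 a = y a} := by
    ext z
    simp
  rw [this]
  refine isOpen_biInter_finset fun a _ => ?_
  have : {z : Z | z.1 a = y a} = (fun z : Z => z.1 a) ⁻¹' {y a} := rfl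
  rw [this]
  exact (isOpen_discrete _).preimage ((continuous_apply a).comp continuous_subtype_val)

/-- a window containing finitely many coordinates -/
theorem exists_window (F : Finset (ℤ × A)) : ∃ N : ℕ, ∀ p ∈ F, |p.1| ≤ N := by
  induction F using Finset.induction_on with
  | empty => exact ⟨0, by simp⟩
  | insert p F _ ih =>
    obtain ⟨N, hN⟩ := ih
    refine ⟨max N p.1.natAbs, ?_⟩
    intro r hr
    rcases Finset.mem_insert.1 hr with rfl | hr
    · rw [Int.abs_eq_natAbs]
      exact_mod_cast le_max_right _ _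
    · refine (hN r hr).trans ?_
      exact_mod_cast le_max_left _ _

theorem perfect_X0 (z : X0) (U : Set X0) (hU : IsOpen U) (hz : z ∈ U) : ∃ y ∈ U, y ≠ z := by
  obtain ⟨F, hF⟩ := exists_finset hU hz
  obtain ⟨N, hN⟩ := exists_window F
  classical
  -- two candidates
  let y1 : ℤ × A → Bool := fun p => if |p.1| ≤ N then z.1 p else false
  let y2 : ℤ × A → Bool := fun p => if |p.1| ≤ N then z.1 p else
    if p.1 = N + 2 then pt [] p.2 else false
  have h1 : y1 ∈ X0 := by
    refine ⟨fun i => ?_, fun i => ?_⟩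
    · by_cases hi : |i| ≤ N
      · simp only [y1, hi, if_true]
        exact z.2.1 i
      · simp only [y1, hi, if_false]
        exact okp_zero
    · by_cases hi : |i| ≤ N <;> by_cases hi' : |i + 1| ≤ N
      · simp only [y1, hi, hi', if_true]
        exact z.2.2 i
      all_goals simp [y1, hi, hi']
  have h2 : y2 ∈ X0 := by
    refine ⟨fun i => ?_, fun i => ?_⟩
    · by_cases hi : |i| ≤ N
      · simp only [y2, hi, if_true]
        exact z.2.1 i
      · by_cases hi2 : i = N + 2
        · simp only [y2, hi, if_false, hi2, if_true]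
          subst hi2
          simp only [hi, if_false]
          exact okp_pt []
        · simp only [y2, hi, if_false, hi2]
          exact okp_zero
    · by_cases hi : |i| ≤ N <;> by_cases hi' : |i + 1| ≤ N
      · simp only [y2, hi, hi', if_true]
        exact z.2.2 i
      · by_cases hi2 : i + 1 = N + 2
        · exfalso
          apply hi'.elim
          rw [abs_le] at hi
          omega
        · simp [y2, hi', hi2]
      · by_cases hi2 : i = N + 2
        · exfalso
          rw [abs_le] at hi'
          omega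
        · simp [y2, hi, hi2]
      · by_cases hi2 : i = N + 2
        · have : ¬ (i + 1 = N + 2) := by omega
          simp [y2, hi', this]
        · simp [y2, hi, hi2]
  have hne : y1 ≠ y2 := by
    intro h
    have := congrFun h ((N : ℤ) + 2, Sum.inl [])
    have h3 : ¬ (|(N : ℤ) + 2| ≤ N) := by
      rw [abs_of_nonneg (by positivity)]
      omega
    simp [y1, y2, h3, pt] at this
  have hU1 : (⟨y1, h1⟩ : X0) ∈ U := hF _ fun a ha => by simp [y1, hN a ha]
  have hU2 : (⟨y2, h2⟩ : X0) ∈ U := hF _ fun a ha => by simp [y2, hN a ha]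
  by_cases h : (⟨y1, h1⟩ : X0) = z
  · refine ⟨⟨y2, h2⟩, hU2, fun h' => hne ?_⟩
    have := h.trans h'.symm
    exact congrArg Subtype.val this
  · exact ⟨_, hU1, h⟩

instance : CompactSpace X0 := isCompact_iff_compactSpace.1 isClosed_X0.isCompact

instance : Nonempty X0 := ⟨⟨cst fun _ => false, cst_mem okp_zero⟩⟩

theorem exists_homeo : Nonempty (X0 ≃ₜ (ℕ → Bool)) := by
  obtain ⟨e⟩ : Nonempty ((ℤ × A) ≃ ℕ) := nonempty_equiv_of_countable
  refine Pool.Agent.H812R3.CantorChar.cantor_char (fun (y : X0) n => y.1 (e.symm n)) ?_ ?_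
    perfect_X0
  · exact continuous_pi fun n => (continuous_apply _).comp continuous_subtype_val
  · intro y z h
    refine Subtype.ext (funext fun p => ?_)
    have := congrFun h (e p)
    simpa using this

end Pool.Agent.Q203.TR
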