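import Pool.Agent.Q203.TR.GraphCode

set_option autoImplicit false

open Set TopologicalSpace Topology

namespace Pool.Agent.Q203.TR

/-- the Cantor set -/
abbrev Cn := ℕ → Bool

theorem sep_clopen (x y : Cn) (h : ∀ U : Clopens Cn, x ∈ U → y ∈ U) : x = y := by
  funext n
  by_contra hne
  let U : Clopens Cn := ⟨{z | z n = x n}, by
    have : {z : Cn | z n = x n} = (fun z : Cn => z n) ⁻¹' {x n} := rfl
    rw [this]
    exact (isClopen_discrete _).preimage (continuous_apply n)⟩
  have h1 : y ∈ U := h U rfl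
  exact hne h1.symm

/-- the point of the dual space -/
theorem exists_point (φ : Clopens Cn ≃o Clopens Cn) (x : Cn) :
    ∃ y, ∀ U : Clopens Cn, x ∈ U → y ∈ φ U := by
  let I := {U : Clopens Cn // x ∈ U}
  have : Nonempty I := ⟨⟨⊤, trivial⟩⟩
  have h := IsCompact.nonempty_iInter_of_directed_nonempty_isCompact_isClosed
    (fun U : I => ((φ U.1 : Clopens Cn) : Set Cn)) ?_ ?_ ?_ ?_
  · obtain ⟨y, hy⟩ := h
    exact ⟨y, fun U hU => mem_iInter.1 hy ⟨U, hU⟩⟩
  · rintro ⟨U, hU⟩ ⟨V, hV⟩
    refine ⟨⟨U ⊓ V, ⟨hU, hV⟩⟩, ?_, ?_⟩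
    · exact φ.monotone inf_le_left
    · exact φ.monotone inf_le_right
  · rintro ⟨U, hU⟩
    have hne : φ U ≠ ⊥ := by
      intro h0
      have h1 : U = ⊥ := by
        apply φ.injective
        rw [h0, φ.map_bot]
      rw [h1] at hU
      exact hU
    by_contra hcon
    apply hne
    refine SetLike.ext' ?_
    rw [Set.not_nonempty_iff_eq_empty] at hcon
    exact hcon
  · intro U
    exact (φ U.1).isClopen.isClosed.isCompact
  · intro U
    exact (φ U.1).isClopen.isClosed

/-- Stone duality for the Cantor set -/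
theorem exists_homeo_of_iso (φ : Clopens Cn ≃o Clopens Cn) :
    ∃ h : Cn ≃ₜ Cn, ∀ (U : Clopens Cn) (x : Cn), x ∈ U ↔ h x ∈ φ U := by
  have key : ∀ ψ : Clopens Cn ≃o Clopens Cn, ∃ h : Cn → Cn, ∀ (U : Clopens Cn) (x : Cn),
      x ∈ U ↔ h x ∈ ψ U := by
    intro ψ
    choose h hh using exists_point ψ
    refine ⟨h, fun U x => ⟨fun hx => hh x U hx, fun hx => ?_⟩⟩
    by_contra hxU
    have h1 : x ∈ Uᶜ := hxU
    have h2 := hh x _ h1
    rw [map_compl' ψ] at h2
    exact h2 hx
  obtain ⟨h, hh⟩ := key φ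
  obtain ⟨k, hk⟩ := key φ.symm
  have hcont : ∀ (ψ : Clopens Cn ≃o Clopens Cn) (h : Cn → Cn), (∀ (U : Clopens Cn) (x : Cn),
      x ∈ U ↔ h x ∈ ψ U) → Continuous h := by
    intro ψ h hh
    refine continuous_pi fun n => ?_
    rw [continuous_discrete_rng]
    intro b
    let U : Clopens Cn := ⟨{z | z n = b}, by
      have : {z : Cn | z n = b} = (fun z : Cn => z n) ⁻¹' {b} := rfl
      rw [this]
      exact (isClopen_discrete _).preimage (continuous_apply n)⟩
    have h1 : (fun a => h a n) ⁻¹' {b} = ((ψ.symm U : Clopens Cn) : Set Cn) := by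
      ext x
      have := hh (ψ.symm U) x
      rw [ψ.apply_symm_apply] at this
      exact this.symm
    rw [h1]
    exact (ψ.symm U).isClopen.isOpen
  refine ⟨⟨⟨h, k, fun x => ?_, fun x => ?_⟩, hcont φ h hh, hcont φ.symm k hk⟩, hh⟩
  · refine (sep_clopen _ _ fun U hU => ?_).symm
    have h1 := (hh U x).1 hU
    have h2 := (hk (φ U) (h x)).1 h1
    rw [φ.symm_apply_apply] at h2
    exact h2
  · refine (sep_clopen _ _ fun U hU => ?_).symm
    have h1 := (hk U x).1 hU
    have h2 := (hh (φ.symm U) (k x)).1 h1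
    rw [φ.apply_symm_apply] at h2
    exact h2

open Classical in
/-- the digraph coding a homeomorphism -/
noncomputable def hcode (T : Cn ≃ₜ Cn) : Clopens Cn ⊕ Clopens Cn → Clopens Cn ⊕ Clopens Cn → Bool
  | Sum.inl b, Sum.inl c => decide (b ≤ c)
  | Sum.inl b, Sum.inr c => decide (b = c)
  | Sum.inr b, Sum.inl c => decide (T '' (b : Set Cn) = (c : Set Cn))
  | Sum.inr _, Sum.inr _ => false

/-- image of a clopen set -/
def img (T : Cn ≃ₜ Cn) (b : Clopens Cn) : Clopens Cn :=
  ⟨T '' (b : Set Cn), T.isClosedMap _ b.isClopen.isClosed, T.isOpenMap _ b.isClopen.isOpen⟩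

theorem coe_img (T : Cn ≃ₜ Cn) (b : Clopens Cn) : ((img T b : Clopens Cn) : Set Cn) =
    T '' (b : Set Cn) := rfl

theorem iso_of_hcode {T T' : Cn ≃ₜ Cn} (f : Equiv.Perm (Clopens Cn ⊕ Clopens Cn))
    (hf : ∀ x y, hcode T x y = hcode T' (f x) (f y)) :
    ∃ h : Cn ≃ₜ Cn, ∀ x, h (T x) = T' (h x) := by
  classical
  have hloop : ∀ (T : Cn ≃ₜ Cn) (x : Clopens Cn ⊕ Clopens Cn), hcode T x x = true ↔
      ∃ b, x = Sum.inl b := by
    rintro T (b | b)
    · simp [hcode]
    · simp [hcode]
  have h1 : ∀ b, ∃ c, f (Sum.inl b) = Sum.inl c := by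
    intro b
    rw [← hloop T', ← hf, hloop]
    exact ⟨b, rfl⟩
  have h2 : ∀ b, ∃ c, f.symm (Sum.inl b) = Sum.inl c := by
    intro b
    rw [← hloop T, hf, f.apply_symm_apply, hloop]
    exact ⟨b, rfl⟩
  choose e he using h1
  choose e' he' using h2
  let φ : Clopens Cn ≃o Clopens Cn :=
    { toFun := e
      invFun := e'
      left_inv := fun v => by
        have := f.symm_apply_apply (Sum.inl v)
        rw [he, he'] at this
        exact Sum.inl_injective this
      right_inv := fun v => by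
        have := f.apply_symm_apply (Sum.inl v)
        rw [he', he] at this
        exact Sum.inl_injective this
      map_rel_iff' := fun {b c} => by
        have := hf (Sum.inl b) (Sum.inl c)
        rw [he, he] at this
        simp only [hcode, decide_eq_decide] at this
        exact this.symm }
  have hφ : ∀ b, f (Sum.inl b) = Sum.inl (φ b) := he
  have hr : ∀ b, f (Sum.inr b) = Sum.inr (φ b) := by
    intro b
    have h3 := hf (Sum.inl b) (Sum.inr b)
    rw [hφ] at h3
    rcases hfb : f (Sum.inr b) with c | c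
    · exfalso
      have h4 := he' c
      rw [← hfb, f.symm_apply_apply] at h4
      simp at h4
    · rw [hfb] at h3
      simp only [hcode] at h3
      have : φ b = c := by simpa using h3.symm
      rw [this]
  have hT : ∀ b, φ (img T b) = img T' (φ b) := by
    intro b
    have h3 := hf (Sum.inr b) (Sum.inl (img T b))
    rw [hφ, hr] at h3
    have h4 : hcode T (Sum.inr b) (Sum.inl (img T b)) = true := by
      simp only [hcode, coe_img, decide_true]
    rw [h4] at h3
    refine SetLike.ext' ?_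
    have h5 := h3.symm
    simp only [hcode, decide_eq_true_eq] at h5
    exact h5.symm
  obtain ⟨h, hh⟩ := exists_homeo_of_iso φ
  refine ⟨h, fun x => ?_⟩
  -- separate points
  refine (sep_clopen _ _ fun U hU => ?_).symm
  -- `T' (h x) ∈ U`
  have h5 : h x ∈ img T'.symm U := ⟨T' (h x), hU, T'.symm_apply_apply _⟩
  obtain ⟨b, hb⟩ := φ.surjective (img T'.symm U)
  rw [← hb, ← hh] at h5
  have h6 : T x ∈ img T b := ⟨x, h5, rfl⟩
  rw [hh, hT, hb] at h6
  obtain ⟨z, ⟨w, hw, rfl⟩, hz⟩ := h6
  rw [← hz, T'.apply_symm_apply]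
  exact hw

theorem hcode_of_conj {T T' : Cn ≃ₜ Cn} (h : Cn ≃ₜ Cn) (hh : ∀ x, h (T x) = T' (h x)) :
    ∃ f : Equiv.Perm (Clopens Cn ⊕ Clopens Cn), ∀ x y, hcode T x y = hcode T' (f x) (f y) := by
  classical
  let e : Equiv.Perm (Clopens Cn) := ⟨img h, img h.symm, fun b => by
    refine SetLike.ext' ?_
    rw [coe_img, coe_img, Set.image_image]
    simp, fun b => by
    refine SetLike.ext' ?_
    rw [coe_img, coe_img, Set.image_image]
    simp⟩
  have hle : ∀ b c, b ≤ c ↔ e b ≤ e c := by
    intro b c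
    change b ≤ c ↔ h '' (b : Set Cn) ⊆ h '' (c : Set Cn)
    rw [Set.image_subset_image_iff h.injective]
    rfl
  refine ⟨Equiv.sumCongr e e, ?_⟩
  rintro (b | b) (c | c)
  · simp only [hcode, Equiv.sumCongr_apply, Sum.map_inl, decide_eq_decide]
    exact hle b c
  · simp only [hcode, Equiv.sumCongr_apply, Sum.map_inl, Sum.map_inr, decide_eq_decide]
    exact e.injective.eq_iff.symm
  · simp only [hcode, Equiv.sumCongr_apply, Sum.map_inl, Sum.map_inr, decide_eq_decide]
    have h1 : T' '' ((e b : Clopens Cn) : Set Cn) = h '' (T '' (b : Set Cn)) := by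
      change T' '' (h '' (b : Set Cn)) = h '' (T '' (b : Set Cn))
      rw [Set.image_image, Set.image_image]
      simp only [hh]
    rw [h1]
    change _ ↔ h '' (T '' (b : Set Cn)) = h '' (c : Set Cn)
    exact (Set.image_injective.2 h.injective).eq_iff.symm
  · rfl

/-- the topology of uniform convergence on the homeomorphism group of the Cantor set -/
@[reducible] def homeoTop : TopologicalSpace (Cn ≃ₜ Cn) :=
  TopologicalSpace.induced (fun T => (⟨T, T.continuous⟩ : C(Cn, Cn))) inferInstance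

theorem isOpen_mapsTo (b c : Clopens Cn) :
    IsOpen[homeoTop] {T : Cn ≃ₜ Cn | T '' (b : Set Cn) ⊆ (c : Set Cn)} := by
  rw [homeoTop, isOpen_induced_iff]
  refine ⟨{f : C(Cn, Cn) | MapsTo f (b : Set Cn) (c : Set Cn)},
    ContinuousMap.isOpen_setOfPred_mapsTo b.isClopen.isClosed.isCompact c.isClopen.isOpen, ?_⟩
  ext T
  simp only [mem_preimage, mem_ofPred_eq]
  exact Set.mapsTo_iff_image_subset

theorem meas_hcode (x y : Clopens Cn ⊕ Clopens Cn) :
    @Measurable _ _ (@borel _ homeoTop) _ (fun T : Cn ≃ₜ Cn => hcode T x y) := by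
  classical
  let _ := homeoTop
  let _ : MeasurableSpace (Cn ≃ₜ Cn) := borel _
  have _ : BorelSpace (Cn ≃ₜ Cn) := ⟨rfl⟩
  rcases x with b | b <;> rcases y with c | c
  · exact measurable_const
  · exact measurable_const
  · have h1 : MeasurableSet {T : Cn ≃ₜ Cn | T '' (b : Set Cn) = (c : Set Cn)} := by
      have h2 : {T : Cn ≃ₜ Cn | T '' (b : Set Cn) = (c : Set Cn)} =
          {T : Cn ≃ₜ Cn | T '' (b : Set Cn) ⊆ (c : Set Cn)} ∩
          {T : Cn ≃ₜ Cn | T '' ((bᶜ : Clopens Cn) : Set Cn) ⊆ ((cᶜ : Clopens Cn) : Set Cn)} := by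
        ext T
        simp only [mem_ofPred_eq, mem_inter_iff, Clopens.coe_compl]
        rw [Set.image_compl_eq T.bijective, Set.compl_subset_compl]
        exact Set.Subset.antisymm_iff
      rw [h2]
      exact (isOpen_mapsTo b c).measurableSet.inter (isOpen_mapsTo bᶜ cᶜ).measurableSet
    exact measurable_to_bool (by
      have : (fun T : Cn ≃ₜ Cn => hcode T (Sum.inr b) (Sum.inl c)) ⁻¹' {true} =
          {T : Cn ≃ₜ Cn | T '' (b : Set Cn) = (c : Set Cn)} := by
        ext T
        simp [hcode]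
      rw [this]
      exact h1)
  · exact measurable_const

end Pool.Agent.Q203.TR
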